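import Pool.Agent.N194.BQ.Curve

/-!
# A line bundle on `A⟨T⟩` which is not extended
-/

set_option autoImplicit false
set_option linter.unusedSectionVars false
set_option maxHeartbeats 4000000

namespace Pool.Agent.N194.BQ

open Filter Topology TensorProduct

universe u v w

namespace Par

variable {k : Type u} [NontriviallyNormedField k] [IsUltrametricDist k] [CompleteSpace k]
  (Q : Par k)

/-- the ring `A⟨T⟩` -/
abbrev B : Type u := Tate Q.A Unit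

/-- the constants in `A⟨T⟩` -/
noncomputable def cB : k →+* Q.B := (Tate.C (R := Q.A) (σ := Unit)).comp Q.cst

lemma norm_cB (a : k) : ‖Q.cB a‖ = ‖a‖ := by
  change ‖(Tate.C (Q.cst a) : Q.B)‖ = _
  rw [Tate.norm_C, norm_cst]

/-- the variable `T` -/
noncomputable def τ : Q.B := Tate.X ()

lemma norm_τ : ‖Q.τ‖ = 1 := Tate.norm_X _

/-- the inclusion `k⟨T⟩ → A⟨T⟩` -/
noncomputable def j : Tate k Unit →+* Q.B :=
  Tate.eval Q.cB (fun r => (Q.norm_cB r).le) (fun _ => Q.τ) (fun _ => Q.norm_τ.le)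

lemma norm_j_le (f : Tate k Unit) : ‖Q.j f‖ ≤ ‖f‖ := Tate.norm_eval_le _ _ _ _ _
lemma j_C (a : k) : Q.j (Tate.C a) = Q.cB a := Tate.eval_C _ _ _ _ _
lemma j_X : Q.j (Tate.X ()) = Q.τ := Tate.eval_X _ _ _ _ _

/-- the right hand side of the Artin–Schreier like equation -/
noncomputable def hh : Tate k Unit :=
  Tate.C Q.c3 * Tate.X () ^ 3 + Tate.C (Q.a4 * Q.c) * Tate.X ()

lemma norm_hh : ‖Q.hh‖ < 1 := by
  refine norm_add_lt ?_ ?_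
  · refine (norm_mul_le _ _).trans_lt ?_
    rw [Tate.norm_C]
    calc ‖Q.c3‖ * ‖(Tate.X () : Tate k Unit) ^ 3‖ ≤ ‖Q.c3‖ * 1 := by
          refine mul_le_mul_of_nonneg_left ?_ (norm_nonneg _)
          refine (norm_pow_le _ _).trans ?_
          rw [Tate.norm_X, one_pow]
      _ = ‖Q.c3‖ := mul_one _
      _ < 1 := Q.norm_c3
  · refine (norm_mul_le _ _).trans_lt ?_
    rw [Tate.norm_C, Tate.norm_X, mul_one, norm_mul]
    calc ‖Q.a4‖ * ‖Q.c‖ ≤ 1 * ‖Q.c‖ := mul_le_mul_of_nonneg_right Q.ha4 (norm_nonneg _)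
      _ = ‖Q.c‖ := one_mul _
      _ < 1 := Q.hc

lemma exists_y : ∃ y : Tate k Unit, y ^ 2 + y = Q.hh ∧ ‖y‖ < 1 := by
  obtain ⟨y, h1, h2⟩ := exists_root Q.hh Q.norm_hh
  exact ⟨y, h1, h2.trans_lt Q.norm_hh⟩

/-- the small root -/
noncomputable def y' : Tate k Unit := Q.exists_y.choose

lemma y'_eq : Q.y' ^ 2 + Q.y' = Q.hh := Q.exists_y.choose_spec.1
lemma norm_y' : ‖Q.y'‖ < 1 := Q.exists_y.choose_spec.2

/-- `x(T)` -/
noncomputable def xT : Q.B := Q.cB Q.c3 * Q.τ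
/-- `y(T)` -/
noncomputable def yT : Q.B := Q.cB Q.c3 * Q.j Q.y'
/-- `x - x(T)` -/
noncomputable def s : Q.B := Tate.C Q.ξ - Q.xT
/-- `y - y(T)` -/
noncomputable def u : Q.B := Tate.C Q.ω - Q.yT
/-- `y + c³ + y(T)` -/
noncomputable def u' : Q.B := Tate.C Q.ω + Q.cB Q.c3 + Q.yT

/-- The ideal of the graph of the analytic map `T ↦ (x(T), y(T))` -/
noncomputable def I : Ideal Q.B := Ideal.span {Q.s, Q.u}

lemma curve_T : Q.yT * Q.yT + Q.cB Q.c3 * Q.yT = Q.xT ^ 3 + Q.cB Q.α * Q.xT := by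
  have h1 : Q.j Q.y' ^ 2 + Q.j Q.y' = Q.cB Q.c3 * Q.τ ^ 3 + Q.cB (Q.a4 * Q.c) * Q.τ := by
    rw [← map_pow, ← map_add, y'_eq, hh, map_add, map_mul, map_mul, map_pow, j_C, j_C, j_X]
  have e1 : Q.cB Q.c3 = Q.cB Q.c ^ 3 := by rw [c3, map_pow]
  have e2 : Q.cB Q.α = Q.cB Q.a4 * Q.cB Q.c ^ 4 := by rw [α, map_mul, map_pow]
  have e3 : Q.cB (Q.a4 * Q.c) = Q.cB Q.a4 * Q.cB Q.c := map_mul _ _ _
  rw [e1, e3] at h1
  rw [xT, yT, e1, e2]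
  linear_combination (Q.cB Q.c ^ 6) * h1

lemma curve_B : (Tate.C Q.ω : Q.B) * Tate.C Q.ω + Q.cB Q.c3 * Tate.C Q.ω =
    (Tate.C Q.ξ) ^ 3 + Q.cB Q.α * Tate.C Q.ξ := by
  have := congrArg (Tate.C : Q.A →+* Q.B) Q.curve_eq
  rw [map_add, map_add, map_mul, map_mul, map_mul, map_pow] at this
  exact this

lemma u_mul_u' : Q.u * Q.u' =
    Q.s * ((Tate.C Q.ξ) ^ 2 + Tate.C Q.ξ * Q.xT + Q.xT ^ 2 + Q.cB Q.α) := by
  rw [u, u', s]
  linear_combination Q.curve_B - Q.curve_T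

lemma isUnit_v : IsUnit (Q.cB Q.c3 + 2 * Q.yT) := by
  have h1 : Q.cB Q.c3 + 2 * Q.yT = Q.cB Q.c3 * (1 + 2 * Q.j Q.y') := by rw [yT]; ring
  rw [h1]
  refine IsUnit.mul ((isUnit_iff_ne_zero.2 Q.c3_ne).map Q.cB) (isUnit_one_add _ ?_)
  exact (norm_two_mul_le _).trans_lt ((Q.norm_j_le _).trans_lt Q.norm_y')

lemma norm_X_mul (f : Tate k Unit) : ‖Tate.X () * f‖ = ‖f‖ := by
  by_cases hf : f = 0
  · rw [hf, mul_zero]
  · obtain ⟨n, hn⟩ := Tate.exists_W hf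
    rw [(Tate.W_X.mul hn).2, Tate.norm_X, one_mul]

lemma norm_ξ_mul (z : Q.A) : ‖Q.ξ * z‖ = ‖z‖ := by
  rw [norm_A, norm_A, re_mul, im_mul, ξ, re_ι, im_ι, mul_zero, zero_mul, zero_mul, mul_zero,
    zero_mul, add_zero, add_zero, add_zero, norm_X_mul, norm_X_mul]

lemma norm_Cξ_mul (z : Q.B) : ‖Tate.C Q.ξ * z‖ = ‖z‖ := by
  rw [Tate.norm_def, Tate.norm_def]
  congr 1
  funext t
  rw [Tate.coeff_C_mul, norm_ξ_mul]

lemma s_mul_eq_zero (z : Q.B) (h : Q.s * z = 0) : z = 0 := by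
  have h1 : Tate.C Q.ξ * z = Q.xT * z := by
    rw [s, sub_mul] at h
    exact sub_eq_zero.1 h
  have h2 : ‖z‖ ≤ ‖Q.c3‖ * ‖z‖ := by
    calc ‖z‖ = ‖Q.xT * z‖ := by rw [← h1, norm_Cξ_mul]
      _ ≤ ‖Q.xT‖ * ‖z‖ := norm_mul_le _ _
      _ ≤ ‖Q.c3‖ * ‖z‖ := by
        refine mul_le_mul_of_nonneg_right ?_ (norm_nonneg _)
        rw [xT]
        refine (norm_mul_le _ _).trans ?_
        rw [norm_cB, norm_τ, mul_one]
  by_contra hz
  have hpos : 0 < ‖z‖ := norm_pos_iff.2 hz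
  have := Q.norm_c3
  nlinarith

lemma s_cancel (a b : Q.B) (h : Q.s * a = Q.s * b) : a = b := by
  have : Q.s * (a - b) = 0 := by rw [mul_sub, h, sub_self]
  exact sub_eq_zero.1 (Q.s_mul_eq_zero _ this)

lemma s_mem : Q.s ∈ Q.I := Ideal.subset_span (by simp)
lemma u_mem : Q.u ∈ Q.I := Ideal.subset_span (by simp)

/-- generators -/
noncomputable def gen : Fin 2 → Q.B := ![Q.s, Q.u]
/-- dual generators -/
noncomputable def gen' : Fin 2 → Q.B :=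
  ![(Q.isUnit_v.unit⁻¹ : (Q.B)ˣ) * Q.u', -((Q.isUnit_v.unit⁻¹ : (Q.B)ˣ) * Q.s)]

lemma gen_mem (i : Fin 2) : Q.gen i ∈ Q.I := by
  fin_cases i
  · exact Q.s_mem
  · exact Q.u_mem

lemma gen_sum : ∑ i, Q.gen i * Q.gen' i = Q.s := by
  rw [Fin.sum_univ_two]
  change Q.s * ((Q.isUnit_v.unit⁻¹ : (Q.B)ˣ) * Q.u') +
    Q.u * -((Q.isUnit_v.unit⁻¹ : (Q.B)ˣ) * Q.s) = Q.s
  have h1 : ((Q.isUnit_v.unit⁻¹ : (Q.B)ˣ) : Q.B) * (Q.cB Q.c3 + 2 * Q.yT) = 1 :=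
    Q.isUnit_v.val_inv_mul
  have h2 : Q.u' - Q.u = Q.cB Q.c3 + 2 * Q.yT := by rw [u', u]; ring
  linear_combination Q.s * h1 + Q.s * ((Q.isUnit_v.unit⁻¹ : (Q.B)ˣ) : Q.B) * h2

lemma gen_dvd (x : Q.B) (hx : x ∈ Q.I) (i : Fin 2) : Q.s ∣ x * Q.gen' i := by
  obtain ⟨a, b, rfl⟩ := Ideal.mem_span_pair.1 hx
  fin_cases i
  · change Q.s ∣ (a * Q.s + b * Q.u) * ((Q.isUnit_v.unit⁻¹ : (Q.B)ˣ) * Q.u')
    refine ⟨((Q.isUnit_v.unit⁻¹ : (Q.B)ˣ) : Q.B) * (a * Q.u' +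
      b * ((Tate.C Q.ξ) ^ 2 + Tate.C Q.ξ * Q.xT + Q.xT ^ 2 + Q.cB Q.α)), ?_⟩
    linear_combination (b * ((Q.isUnit_v.unit⁻¹ : (Q.B)ˣ) : Q.B)) * Q.u_mul_u'
  · change Q.s ∣ (a * Q.s + b * Q.u) * -((Q.isUnit_v.unit⁻¹ : (Q.B)ˣ) * Q.s)
    exact ⟨-((a * Q.s + b * Q.u) * ((Q.isUnit_v.unit⁻¹ : (Q.B)ˣ) : Q.B)), by ring⟩

theorem projective_I : Module.Projective Q.B Q.I := by
  obtain ⟨φ, _, h1⟩ := Inv.exists_dual Q.s_cancel Q.gen Q.gen' Q.gen_dvd Q.gen_sum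
  exact Inv.projective Q.gen Q.gen_mem φ h1

theorem finite_I : Module.Finite Q.B Q.I := by
  obtain ⟨φ, _, h1⟩ := Inv.exists_dual Q.s_cancel Q.gen Q.gen' Q.gen_dvd Q.gen_sum
  exact Inv.finite Q.gen Q.gen_mem φ h1

/-- specialisation `T ↦ t`, as a ring homomorphism -/
noncomputable def r0 (t : k) (ht : ‖t‖ ≤ 1) : Q.B →+* Q.A :=
  Tate.eval (RingHom.id Q.A) (fun _ => le_rfl) (fun _ => Q.cst t)
    (fun _ => (Q.norm_cst t).trans_le ht)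

/-- specialisation `T ↦ t` -/
noncomputable def r (t : k) (ht : ‖t‖ ≤ 1) : Q.B →ₐ[Q.A] Q.A where
  __ := Q.r0 t ht
  commutes' a := Tate.eval_C (RingHom.id Q.A) (fun _ => le_rfl) (fun _ => Q.cst t)
    (fun _ => (Q.norm_cst t).trans_le ht) a

section r

variable (t : k) (ht : ‖t‖ ≤ 1)

lemma r_C (a : Q.A) : Q.r t ht (Tate.C a) = a :=
  Tate.eval_C (RingHom.id Q.A) (fun _ => le_rfl) (fun _ => Q.cst t)
    (fun _ => (Q.norm_cst t).trans_le ht) a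
lemma r_τ : Q.r t ht Q.τ = Q.cst t :=
  Tate.eval_X (RingHom.id Q.A) (fun _ => le_rfl) (fun _ => Q.cst t)
    (fun _ => (Q.norm_cst t).trans_le ht) ()
lemma norm_r_le (z : Q.B) : ‖Q.r t ht z‖ ≤ ‖z‖ :=
  Tate.norm_eval_le (RingHom.id Q.A) (fun _ => le_rfl) (fun _ => Q.cst t)
    (fun _ => (Q.norm_cst t).trans_le ht) z
lemma r_cB (a : k) : Q.r t ht (Q.cB a) = Q.cst a := Q.r_C t ht _

lemma r_j (f : Tate k Unit) : Q.r t ht (Q.j f) = Q.cst (Tate.ev t ht f) := by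
  have : (Q.r t ht : Q.B →+* Q.A).comp Q.j = Q.cst.comp (Tate.ev t ht) := by
    refine Tate.ringHom_ext (fun f => ?_) (fun f => ?_) (fun a => ?_) (fun i => ?_)
    · exact (Q.norm_r_le t ht _).trans (Q.norm_j_le f)
    · change ‖Q.cst (Tate.ev t ht f)‖ ≤ _
      rw [norm_cst]
      exact Tate.norm_ev_le _ _
    · change Q.r t ht (Q.j (Tate.C a)) = Q.cst (Tate.ev t ht (Tate.C a))
      rw [j_C, r_cB, Tate.ev_C]
    · change Q.r t ht (Q.j (Tate.X ())) = Q.cst (Tate.ev t ht (Tate.X ()))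
      rw [j_X, r_τ, Tate.ev_X]
  exact RingHom.congr_fun this f

/-- the `x`-coordinate of the point at `t` -/
noncomputable def xt : k := Q.c3 * t
/-- the `y`-coordinate of the point at `t` -/
noncomputable def yt : k := Q.c3 * Tate.ev t ht Q.y'

lemma r_s : Q.r t ht Q.s = Q.ξ - Q.cst (Q.xt t) := by
  rw [s, map_sub, r_C, xT, map_mul, r_cB, r_τ, xt, map_mul]

lemma r_u : Q.r t ht Q.u = Q.ω - Q.cst (Q.yt t ht) := by
  rw [u, map_sub, r_C, yT, map_mul, r_cB, r_j, yt, map_mul]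

include ht in
omit [IsUltrametricDist k] [CompleteSpace k] in
lemma norm_xt_le : ‖Q.xt t‖ ≤ 1 := by
  rw [xt, norm_mul]
  calc ‖Q.c3‖ * ‖t‖ ≤ 1 * 1 := mul_le_mul Q.norm_c3.le ht (norm_nonneg _) zero_le_one
    _ = 1 := one_mul _

lemma curve_t : Q.yt t ht * Q.yt t ht + Q.c3 * Q.yt t ht = Q.xt t ^ 3 + Q.α * Q.xt t := by
  have h1 : Tate.ev t ht Q.y' ^ 2 + Tate.ev t ht Q.y' = Q.c3 * t ^ 3 + (Q.a4 * Q.c) * t := by
    rw [← map_pow, ← map_add, y'_eq, hh, map_add, map_mul, map_mul, map_pow, Tate.ev_C,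
      Tate.ev_C, Tate.ev_X]
  rw [xt, yt]
  rw [c3] at h1 ⊢
  rw [α]
  linear_combination (Q.c ^ 6) * h1

lemma map_I : Q.I.map (Q.r t ht) =
    Ideal.span {Q.ξ - Q.cst (Q.xt t), Q.ω - Q.cst (Q.yt t ht)} := by
  rw [I, Ideal.map_span, Set.image_pair, r_s, r_u]

/-- evaluation at the point at `t` -/
noncomputable def ptt : Q.A →+* k := Q.pt (Q.xt t) (Q.yt t ht) (Q.norm_xt_le t ht) (Q.curve_t t ht)

lemma ptt_apply (z : Q.A) : Q.ptt t ht z = Tate.ev (Q.xt t) (Q.norm_xt_le t ht) (re z) +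
  Tate.ev (Q.xt t) (Q.norm_xt_le t ht) (im z) * Q.yt t ht := rfl

lemma ptt_eq_zero {z : Q.A} (hz : z ∈ Q.I.map (Q.r t ht)) : Q.ptt t ht z = 0 := by
  rw [map_I] at hz
  obtain ⟨a, b, rfl⟩ := Ideal.mem_span_pair.1 hz
  have h1 : Q.ptt t ht Q.ξ = Q.xt t := by
    rw [ptt_apply, ξ, re_ι, im_ι, map_zero, zero_mul, add_zero, Tate.ev_X]
  have h2 : Q.ptt t ht Q.ω = Q.yt t ht := by
    rw [ptt_apply, re_ω, im_ω, map_zero, map_one, zero_add, one_mul]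
  have h3 : ∀ a, Q.ptt t ht (Q.cst a) = a := by
    intro a
    change Tate.ev _ _ (Tate.C a) + Tate.ev _ _ (0 : Tate k Unit) * _ = a
    rw [Tate.ev_C, map_zero, zero_mul, add_zero]
  rw [map_add, map_mul, map_mul, map_sub, map_sub, h1, h2, h3, h3, sub_self, sub_self, mul_zero,
    mul_zero, add_zero]

end r

lemma yt_zero (h0 : ‖(0 : k)‖ ≤ 1) : Q.yt 0 h0 = 0 := by
  have h1 : Tate.ev 0 h0 Q.y' ^ 2 + Tate.ev 0 h0 Q.y' = 0 := by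
    rw [← map_pow, ← map_add, y'_eq, hh, map_add, map_mul, map_mul, map_pow, Tate.ev_C,
      Tate.ev_C, Tate.ev_X]
    ring
  have h2 : Tate.ev 0 h0 Q.y' = 0 := by
    refine root_unique ((Tate.norm_ev_le _ _).trans_lt Q.norm_y') (by rw [norm_zero]; exact one_pos)
      ?_
    rw [h1]; ring
  rw [yt, h2, mul_zero]

/-- The norm of the quadratic algebra -/
noncomputable def N (z : Q.A) : Tate k Unit := Tate.Nm Q.c3 Q.α (re z) (im z)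

lemma N_mul (z w : Q.A) : Q.N (z * w) = Q.N z * Q.N w := by
  unfold N Tate.Nm
  rw [re_mul, im_mul]
  ring

theorem no_iso (ψ : ↥(Q.I.map (Q.r 0 (by rw [norm_zero]; exact zero_le_one))) ≃ₗ[Q.A]
    ↥(Q.I.map (Q.r 1 (by rw [norm_one])))) : False := by
  have hn0 : ‖(0 : k)‖ ≤ 1 := by rw [norm_zero]; exact zero_le_one
  have hn1 : ‖(1 : k)‖ ≤ 1 := by rw [norm_one]
  have hξ : Q.ξ ∈ Q.I.map (Q.r 0 hn0) := by
    rw [map_I]
    refine Ideal.subset_span ?_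
    simp [xt]
  have hω : Q.ω ∈ Q.I.map (Q.r 0 hn0) := by
    rw [map_I]
    refine Ideal.subset_span ?_
    simp [yt_zero]
  have hx1 : Q.ξ - Q.cst (Q.xt 1) ∈ Q.I.map (Q.r 1 hn1) := by
    rw [map_I]
    refine Ideal.subset_span ?_
    simp
  set F := ψ ⟨Q.ξ, hξ⟩ with hF
  set H := ψ ⟨Q.ω, hω⟩ with hH
  set G := ψ.symm ⟨_, hx1⟩ with hG
  have e1 : (G : Q.A) * F = Q.ξ * (Q.ξ - Q.cst (Q.xt 1)) := by
    have h1 : (G : Q.A) • (⟨Q.ξ, hξ⟩ : ↥(Q.I.map (Q.r 0 hn0))) = Q.ξ • G := by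
      apply Subtype.ext
      change (G : Q.A) * Q.ξ = Q.ξ * (G : Q.A)
      exact mul_comm _ _
    have h2 := congrArg ψ h1
    rw [map_smul, map_smul, hG, LinearEquiv.apply_symm_apply] at h2
    exact congrArg Subtype.val h2
  have e2 : Q.ω * F = Q.ξ * H := by
    have h1 : Q.ω • (⟨Q.ξ, hξ⟩ : ↥(Q.I.map (Q.r 0 hn0))) = Q.ξ • ⟨Q.ω, hω⟩ := by
      apply Subtype.ext
      change Q.ω * Q.ξ = Q.ξ * Q.ω
      exact mul_comm _ _
    have h2 := congrArg ψ h1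
    rw [map_smul, map_smul] at h2
    exact congrArg Subtype.val h2
  have hy1 : ‖Q.yt 1 hn1‖ ≤ ‖Q.c3‖ := by
    rw [yt, norm_mul]
    calc ‖Q.c3‖ * ‖Tate.ev 1 hn1 Q.y'‖ ≤ ‖Q.c3‖ * 1 :=
          mul_le_mul_of_nonneg_left ((Tate.norm_ev_le _ _).trans Q.norm_y'.le) (norm_nonneg _)
      _ = _ := mul_one _
  refine Tate.no_pair (c3 := Q.c3) (x₁ := Q.xt 1) (y₁ := Q.yt 1 hn1) (α := Q.α)
    Q.c3_ne Q.norm_c3 Q.norm_α (by rw [xt, mul_one]) (Q.norm_xt_le 1 hn1) hy1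
    (re (F : Q.A)) (im (F : Q.A)) (re (G : Q.A)) (im (G : Q.A)) ?_ ?_ ?_ ?_
  · have h1 : Q.N ((G : Q.A) * F) = Q.N (Q.ξ * (Q.ξ - Q.cst (Q.xt 1))) := by rw [e1]
    rw [N_mul] at h1
    rw [mul_comm]
    refine Eq.trans h1 ?_
    have h2 : Q.ξ * (Q.ξ - Q.cst (Q.xt 1)) =
        Q.ι (Tate.X () * (Tate.X () - Tate.C (Q.xt 1))) := by
      rw [map_mul, map_sub]
      rfl
    rw [h2, N, re_ι, im_ι, Tate.Nm]
    ring
  · have h1 := Q.ptt_eq_zero 0 hn0 G.2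
    rw [ptt_apply, yt_zero, mul_zero, add_zero] at h1
    have h2 : Q.xt 0 = 0 := by rw [xt, mul_zero]
    simp only [h2] at h1
    rwa [Tate.ev_zero] at h1
  · have h1 := congrArg im e2
    rw [im_mul, im_mul, re_ω, im_ω, ξ, re_ι, im_ι] at h1
    have h2 := congrArg (Tate.ev 0 hn0) h1
    simp only [map_add, map_mul, map_neg, map_zero, map_one, Tate.ev_C, Tate.ev_X] at h2
    rw [Tate.ev_zero, Tate.ev_zero] at h2
    linear_combination h2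
  · exact Q.ptt_eq_zero 1 hn1 F.2

theorem not_extended {N : Type w} [AddCommGroup N] [Module Q.A N] :
    IsEmpty (Q.I ≃ₗ[Q.B] Q.B ⊗[Q.A] N) := by
  refine ⟨fun e => ?_⟩
  have hn0 : ‖(0 : k)‖ ≤ 1 := by rw [norm_zero]; exact zero_le_one
  have hn1 : ‖(1 : k)‖ ≤ 1 := by rw [norm_one]
  have key : ∀ x : k, ‖x‖ < 1 → ∀ a : Q.A, (Q.ξ - Q.cst x) * a = 0 → a = 0 := by
    intro x hx a h
    have h1 : Q.ξ * a = Q.cst x * a := by
      rw [sub_mul] at h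
      exact sub_eq_zero.1 h
    have h2 : ‖a‖ ≤ ‖x‖ * ‖a‖ := by
      calc ‖a‖ = ‖Q.cst x * a‖ := by rw [← h1, norm_ξ_mul]
        _ ≤ ‖Q.cst x‖ * ‖a‖ := norm_mul_le _ _
        _ = ‖x‖ * ‖a‖ := by rw [norm_cst]
    by_contra hz
    have hpos : 0 < ‖a‖ := norm_pos_iff.2 hz
    nlinarith
  obtain ⟨e0⟩ := Inv.equiv_of_extended (Q.r 0 hn0) Q.s_cancel (fun a ha => by
    rw [r_s] at ha
    refine key _ ?_ a ha
    rw [xt, mul_zero, norm_zero]; exact one_pos) Q.gen Q.gen' Q.gen_mem Q.gen_dvd Q.gen_sum e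
  obtain ⟨e1⟩ := Inv.equiv_of_extended (Q.r 1 hn1) Q.s_cancel (fun a ha => by
    rw [r_s] at ha
    refine key _ ?_ a ha
    rw [xt, mul_one]; exact Q.norm_c3) Q.gen Q.gen' Q.gen_mem Q.gen_dvd Q.gen_sum e
  exact Q.no_iso (e0 ≪≫ₗ e1.symm)

end Par

end Pool.Agent.N194.BQ
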