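import Mathlib

/-!
# Invertible ideals: projectivity, and behaviour under base change
-/

set_option autoImplicit false

namespace Pool.Agent.N194.BQ

open TensorProduct

universe u v w

namespace Inv

section Proj

variable {B : Type u} [CommRing B] {I : Ideal B} {s : B} {ι : Type} [Fintype ι]

/-- The linear functionals `x ↦ x β / s` on `I`. -/
lemma exists_dual (hs : ∀ a b : B, s * a = s * b → a = b) (α β : ι → B)
    (hβ : ∀ x ∈ I, ∀ i, s ∣ x * β i) (hsum : ∑ i, α i * β i = s) :
    ∃ φ : ι → (I →ₗ[B] B), (∀ i (x : I), s * φ i x = x * β i) ∧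
      ∀ x : I, (x : B) = ∑ i, φ i x * α i := by
  have h1 : ∀ i (x : I), ∃ y, s * y = x * β i := fun i x => by
    obtain ⟨y, hy⟩ := hβ x x.2 i
    exact ⟨y, hy.symm⟩
  choose g hg using h1
  refine ⟨fun i => { toFun := g i, map_add' := ?_, map_smul' := ?_ }, ?_, ?_⟩
  · intro x y
    apply hs
    rw [mul_add, hg, hg, hg, Submodule.coe_add, add_mul]
  · intro r x
    apply hs
    rw [hg, RingHom.id_apply, smul_eq_mul, mul_left_comm, hg, Submodule.coe_smul, smul_eq_mul,
      mul_assoc]
  · intro i x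
    exact hg i x
  · intro x
    apply hs
    rw [Finset.mul_sum]
    calc s * (x : B) = x * ∑ i, α i * β i := by rw [hsum, mul_comm]
      _ = ∑ i, x * (α i * β i) := Finset.mul_sum _ _ _
      _ = ∑ i, s * (g i x * α i) := by
        refine Finset.sum_congr rfl fun i _ => ?_
        rw [← mul_assoc s, hg]
        ring

lemma projective (α : ι → B) (hα : ∀ i, α i ∈ I) (φ : ι → (I →ₗ[B] B))
    (h : ∀ x : I, (x : B) = ∑ i, φ i x * α i) : Module.Projective B I := by
  classical
  let f : I →ₗ[B] (ι → B) := LinearMap.pi φ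
  let g : (ι → B) →ₗ[B] I := Fintype.linearCombination B (fun i => (⟨α i, hα i⟩ : I))
  refine Module.Projective.of_split f g ?_
  ext x
  change ((Fintype.linearCombination B (fun i => (⟨α i, hα i⟩ : I)) (fun i => φ i x) : I) : B) = x
  rw [Fintype.linearCombination_apply, h x]
  simp

lemma finite (α : ι → B) (hα : ∀ i, α i ∈ I) (φ : ι → (I →ₗ[B] B))
    (h : ∀ x : I, (x : B) = ∑ i, φ i x * α i) : Module.Finite B I := by
  classical
  let g : (ι → B) →ₗ[B] I := Fintype.linearCombination B (fun i => (⟨α i, hα i⟩ : I))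
  refine Module.Finite.of_surjective g fun x => ⟨fun i => φ i x, ?_⟩
  apply Subtype.ext
  change ((Fintype.linearCombination B (fun i => (⟨α i, hα i⟩ : I)) (fun i => φ i x) : I) : B) = x
  rw [Fintype.linearCombination_apply, h x]
  simp

end Proj

section Base

variable {A : Type v} {B : Type u} [CommRing A] [CommRing B] [Algebra B A] {I : Ideal B}
  {s : B} {ι : Type} [Fintype ι]

/-- the multiplication map `A ⊗ I → A` -/
noncomputable def mu (A : Type v) {B : Type u} [CommRing A] [CommRing B] [Algebra B A]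
    (I : Ideal B) : A ⊗[B] I →ₗ[A] A :=
  LinearMap.liftBaseChange A ((Algebra.linearMap B A) ∘ₗ I.subtype)

lemma mu_tmul (a : A) (x : I) : mu A I (a ⊗ₜ x) = a * algebraMap B A x := by
  unfold mu
  rw [LinearMap.liftBaseChange_tmul]
  rfl

lemma mu_injective (hs' : ∀ a : A, algebraMap B A s * a = 0 → a = 0) (α β : ι → B)
    (hα : ∀ i, α i ∈ I) (φ : ι → (I →ₗ[B] B)) (h0 : ∀ i (x : I), s * φ i x = x * β i)
    (h : ∀ x : I, (x : B) = ∑ i, φ i x * α i) : Function.Injective (mu A I) := by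
  classical
  rw [injective_iff_map_eq_zero]
  intro z hz
  let ψ : ι → (A ⊗[B] I →ₗ[A] A) := fun i =>
    LinearMap.liftBaseChange A ((Algebra.linearMap B A) ∘ₗ φ i)
  have hψ : ∀ i (a : A) (x : I), ψ i (a ⊗ₜ x) = a * algebraMap B A (φ i x) := by
    intro i a x
    change LinearMap.liftBaseChange A ((Algebra.linearMap B A) ∘ₗ φ i) (a ⊗ₜ x) = _
    rw [LinearMap.liftBaseChange_tmul]
    rfl
  have e1 : ∀ z, z = ∑ i, ψ i z ⊗ₜ[B] (⟨α i, hα i⟩ : I) := by
    intro z
    induction z with
    | zero => simp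
    | add x y hx hy =>
      simp only [map_add, TensorProduct.add_tmul, Finset.sum_add_distrib]
      rw [← hx, ← hy]
    | tmul a x =>
      simp only [hψ]
      have : x = ∑ i, φ i x • (⟨α i, hα i⟩ : I) := by
        apply Subtype.ext
        rw [h x]
        simp
      conv_lhs => rw [this]
      rw [TensorProduct.tmul_sum]
      refine Finset.sum_congr rfl fun i _ => ?_
      rw [TensorProduct.tmul_smul, TensorProduct.smul_tmul', Algebra.smul_def, mul_comm]
  have e2 : ∀ i z, algebraMap B A s * ψ i z = mu A I z * algebraMap B A (β i) := by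
    intro i z
    induction z with
    | zero => simp
    | add x y hx hy => rw [map_add, map_add, mul_add, add_mul, hx, hy]
    | tmul a x =>
      rw [hψ, mu_tmul, mul_left_comm, ← map_mul, h0, map_mul, mul_assoc]
  rw [e1 z]
  refine Finset.sum_eq_zero fun i _ => ?_
  rw [hs' (ψ i z) (by rw [e2, hz, zero_mul]), TensorProduct.zero_tmul]

lemma range_mu : LinearMap.range (mu A I) = I.map (algebraMap B A) := by
  apply le_antisymm
  · rintro _ ⟨z, rfl⟩
    induction z with
    | zero => rw [map_zero]; exact Ideal.zero_mem _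
    | add x y hx hy => rw [map_add]; exact Ideal.add_mem _ hx hy
    | tmul a x =>
      rw [mu_tmul]
      exact Ideal.mul_mem_left _ _ (Ideal.mem_map_of_mem _ x.2)
  · rw [Ideal.map, Ideal.span_le]
    rintro _ ⟨x, hx, rfl⟩
    exact ⟨1 ⊗ₜ ⟨x, hx⟩, by rw [mu_tmul, one_mul]⟩

/-- `A ⊗ I ≃ IA` -/
noncomputable def muEquiv (h : Function.Injective (mu A I)) :
    A ⊗[B] I ≃ₗ[A] ↥(I.map (algebraMap B A)) :=
  (LinearEquiv.ofInjective (mu A I) h) ≪≫ₗ (LinearEquiv.ofEq _ _ range_mu)

end Base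

section Retract

variable {A : Type v} {B : Type u} [CommRing A] [CommRing B] [Algebra A B] {I : Ideal B}
  {s : B} {ι : Type} [Fintype ι]

/-- If the invertible ideal `I` of `B` is extended from the `A`-module `N`, then for every
retraction `r : B → A` with `r s` a nonzerodivisor, `r(I)A ≃ N`. -/
theorem equiv_of_extended (r : B →ₐ[A] A) (hs : ∀ a b : B, s * a = s * b → a = b)
    (hs' : ∀ a : A, r s * a = 0 → a = 0) (α β : ι → B) (hα : ∀ i, α i ∈ I)
    (hβ : ∀ x ∈ I, ∀ i, s ∣ x * β i) (hsum : ∑ i, α i * β i = s)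
    {N : Type w} [AddCommGroup N] [Module A N] (e : I ≃ₗ[B] B ⊗[A] N) :
    Nonempty (↥(I.map r) ≃ₗ[A] N) := by
  let _ : Algebra B A := r.toRingHom.toAlgebra
  have : IsScalarTower A B A := IsScalarTower.of_algebraMap_eq fun a => (r.commutes a).symm
  obtain ⟨φ, h0, h1⟩ := exists_dual hs α β hβ hsum
  have hinj : Function.Injective (mu A I) := mu_injective hs' α β hα φ h0 h1
  let e1 : A ⊗[B] I ≃ₗ[A] ↥(I.map r) := muEquiv hinj
  let e2 : A ⊗[B] I ≃ₗ[A] A ⊗[B] (B ⊗[A] N) :=
    TensorProduct.AlgebraTensorModule.congr (LinearEquiv.refl A A) e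
  let e3 : A ⊗[B] (B ⊗[A] N) ≃ₗ[A] A ⊗[A] N :=
    TensorProduct.AlgebraTensorModule.cancelBaseChange A B A A N
  exact ⟨e1.symm ≪≫ₗ e2 ≪≫ₗ e3 ≪≫ₗ TensorProduct.lid A N⟩

end Retract

end Inv

end Pool.Agent.N194.BQ
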