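import Pool.Agent.N194.BQ.Eval

/-!
# The norm on a quadratic algebra
-/

set_option autoImplicit false

namespace Pool.Agent.N194.BQ

open Filter Topology

universe u

variable {S : Type u} [NormedCommRing S] {a b : S}

namespace Quad

/-- the coordinates of an element of a quadratic algebra -/
def coords (a b : S) : QuadraticAlgebra S a b →+ S × S where
  toFun z := (z.re, z.im)
  map_zero' := rfl
  map_add' _ _ := rfl

lemma coords_injective : Function.Injective (coords a b) := by
  intro z w h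
  have := Prod.ext_iff.1 h
  exact QuadraticAlgebra.ext this.1 this.2

/-- the maximum norm on a quadratic algebra -/
noncomputable def nacg : NormedAddCommGroup (QuadraticAlgebra S a b) :=
  NormedAddCommGroup.induced (QuadraticAlgebra S a b) (S × S) (coords a b) coords_injective

variable [IsUltrametricDist S]

/-- The maximum norm on a quadratic algebra `S[ω]`, `ω² = a + b ω`, `‖a‖, ‖b‖ ≤ 1`. -/
noncomputable def ncr (ha : ‖a‖ ≤ 1) (hb : ‖b‖ ≤ 1) : NormedCommRing (QuadraticAlgebra S a b) where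
  __ := nacg
  __ := (inferInstance : CommRing (QuadraticAlgebra S a b))
  norm_mul_le z w := by
    have key : ∀ x y z w : S, ‖x‖ ≤ max ‖z‖ ‖w‖ → ‖x‖ ≤ max ‖z‖ ‖w‖ := fun _ _ _ _ h => h
    set N := max ‖z.re‖ ‖z.im‖ with hN
    set M := max ‖w.re‖ ‖w.im‖ with hM
    have hN0 : 0 ≤ N := (norm_nonneg _).trans (le_max_left _ _)
    have hM0 : 0 ≤ M := (norm_nonneg _).trans (le_max_left _ _)
    have m1 : ∀ x y : S, ‖x‖ ≤ N → ‖y‖ ≤ M → ‖x * y‖ ≤ N * M := fun x y hx hy =>
      (norm_mul_le _ _).trans (mul_le_mul hx hy (norm_nonneg _) hN0)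
    have m2 : ∀ c x : S, ‖c‖ ≤ 1 → ‖x‖ ≤ N * M → ‖c * x‖ ≤ N * M := fun c x hc hx => by
      refine (norm_mul_le _ _).trans ?_
      calc ‖c‖ * ‖x‖ ≤ 1 * (N * M) := mul_le_mul hc hx (norm_nonneg _) zero_le_one
        _ = _ := one_mul _
    have z1 : ‖z.re‖ ≤ N := le_max_left _ _
    have z2 : ‖z.im‖ ≤ N := le_max_right _ _
    have w1 : ‖w.re‖ ≤ M := le_max_left _ _
    have w2 : ‖w.im‖ ≤ M := le_max_right _ _
    change max ‖(z * w).re‖ ‖(z * w).im‖ ≤ N * M
    rw [QuadraticAlgebra.re_mul, QuadraticAlgebra.im_mul]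
    refine max_le ?_ ?_
    · refine (IsUltrametricDist.norm_add_le_max _ _).trans (max_le (m1 _ _ z1 w1) ?_)
      rw [mul_assoc]
      exact m2 _ _ ha (m1 _ _ z2 w2)
    · refine (IsUltrametricDist.norm_add_le_max _ _).trans (max_le ?_ ?_)
      · exact (IsUltrametricDist.norm_add_le_max _ _).trans (max_le (m1 _ _ z1 w2) (m1 _ _ z2 w1))
      · rw [mul_assoc]
        exact m2 _ _ hb (m1 _ _ z2 w2)

variable (ha : ‖a‖ ≤ 1) (hb : ‖b‖ ≤ 1)

lemma norm_def (z : QuadraticAlgebra S a b) : letI := ncr ha hb; ‖z‖ = max ‖z.re‖ ‖z.im‖ := rfl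

lemma ultra : letI := ncr ha hb; IsUltrametricDist (QuadraticAlgebra S a b) := by
  letI := ncr ha hb
  refine IsUltrametricDist.isUltrametricDist_of_forall_norm_add_le_max_norm fun z w => ?_
  rw [norm_def ha hb, norm_def ha hb z, norm_def ha hb w]
  refine max_le ?_ ?_
  · exact (IsUltrametricDist.norm_add_le_max z.re w.re).trans
      (max_le_max (le_max_left _ _) (le_max_left _ _))
  · exact (IsUltrametricDist.norm_add_le_max z.im w.im).trans
      (max_le_max (le_max_right _ _) (le_max_right _ _))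

lemma complete [CompleteSpace S] : letI := ncr ha hb; CompleteSpace (QuadraticAlgebra S a b) := by
  letI := ncr ha hb
  have hiso : Isometry (coords a b : QuadraticAlgebra S a b → S × S) :=
    AddMonoidHomClass.isometry_of_norm _ fun z => rfl
  have hsurj : Function.Surjective (coords a b : QuadraticAlgebra S a b → S × S) :=
    fun x => ⟨⟨x.1, x.2⟩, rfl⟩
  have := (IsometryEquiv.mk' (coords a b) (fun x => ⟨x.1, x.2⟩) (fun _ => rfl) hiso)
  exact this.completeSpace

lemma normOne [NormOneClass S] : letI := ncr ha hb; NormOneClass (QuadraticAlgebra S a b) := by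
  letI := ncr ha hb
  refine ⟨?_⟩
  rw [norm_def ha hb]
  change max ‖(1 : S)‖ ‖(0 : S)‖ = 1
  rw [norm_one, norm_zero, max_eq_left zero_le_one]

lemma norm_algebraMap (s : S) :
    letI := ncr ha hb; ‖algebraMap S (QuadraticAlgebra S a b) s‖ = ‖s‖ := by
  letI := ncr ha hb
  rw [norm_def ha hb]
  change max ‖s‖ ‖(0 : S)‖ = ‖s‖
  rw [norm_zero, max_eq_left (norm_nonneg _)]

end Quad

end Pool.Agent.N194.BQ
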