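import Pool.Agent.N194.BQ.Lin
import Pool.Agent.N194.BQ.Quad
import Pool.Agent.N194.BQ.Mod

/-!
# The affinoid curve `y² + c³ y = x³ + a₄ c⁴ x`
-/

set_option autoImplicit false

namespace Pool.Agent.N194.BQ

open Filter Topology

universe u v w

/-- the parameters of the curve -/
structure Par (k : Type u) [NormedField k] where
  /-- the small parameter -/
  c : k
  hc0 : c ≠ 0
  hc : ‖c‖ < 1
  /-- the linear coefficient, before rescaling -/
  a4 : k
  ha4 : ‖a4‖ ≤ 1

/-- small roots of `y² + y = h` -/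
lemma exists_root {S : Type u} [NormedCommRing S] [IsUltrametricDist S] [CompleteSpace S]
    (h : S) (hh : ‖h‖ < 1) : ∃ y : S, y ^ 2 + y = h ∧ ‖y‖ ≤ ‖h‖ := by
  have key : ∀ y : S, ‖y‖ ≤ ‖h‖ → ‖y ^ 2‖ ≤ ‖h‖ * ‖h‖ := fun y hy => by
    rw [pow_two]
    exact (norm_mul_le _ _).trans (mul_le_mul hy hy (norm_nonneg _) (norm_nonneg _))
  let g : ℕ → S := fun n => (fun y => h - y ^ 2)^[n] 0
  have g0 : g 0 = 0 := rfl
  have gs : ∀ n, g (n + 1) = h - g n ^ 2 := fun n => Function.iterate_succ_apply' _ _ _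
  have gb : ∀ n, ‖g n‖ ≤ ‖h‖ := by
    intro n
    induction n with
    | zero => rw [g0, norm_zero]; exact norm_nonneg _
    | succ n ih =>
      rw [gs]
      refine norm_sub_le' le_rfl ((key _ ih).trans ?_)
      calc ‖h‖ * ‖h‖ ≤ ‖h‖ * 1 := mul_le_mul_of_nonneg_left hh.le (norm_nonneg _)
        _ = _ := mul_one _
  have gd : ∀ n, ‖g (n + 1) - g n‖ ≤ ‖h‖ * ‖h‖ ^ n := by
    intro n
    induction n with
    | zero => rw [gs, g0, pow_zero, mul_one]; simp
    | succ n ih =>
      have e : g (n + 1 + 1) - g (n + 1) = -((g (n + 1) - g n) * (g (n + 1) + g n)) := by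
        rw [gs (n + 1), gs n]; ring
      rw [e, norm_neg, pow_succ, ← mul_assoc]
      refine (norm_mul_le _ _).trans (mul_le_mul ih ?_ (norm_nonneg _) (by positivity))
      exact norm_add_le' (gb _) (gb _)
  have hcau : CauchySeq g := by
    refine cauchySeq_of_le_geometric ‖h‖ ‖h‖ hh fun n => ?_
    rw [dist_comm, dist_eq_norm]
    exact gd n
  obtain ⟨y, hy⟩ := cauchySeq_tendsto_of_complete hcau
  refine ⟨y, ?_, ?_⟩
  · have h1 : Tendsto (fun n => g (n + 1)) atTop (𝓝 y) := (tendsto_add_atTop_iff_nat 1).2 hy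
    have h2 : Tendsto (fun n => h - g n ^ 2) atTop (𝓝 (h - y ^ 2)) :=
      tendsto_const_nhds.sub (hy.pow 2)
    simp_rw [gs] at h1
    have h3 := tendsto_nhds_unique h1 h2
    linear_combination h3
  · exact le_of_tendsto hy.norm (Eventually.of_forall gb)

/-- elements close to `1` are units -/
lemma isUnit_one_add {S : Type u} [NormedCommRing S] [CompleteSpace S]
    (h : S) (hh : ‖h‖ < 1) : IsUnit (1 + h) := by
  have := isUnit_one_sub_of_norm_lt_one (x := -h) (by rwa [norm_neg])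
  rwa [sub_neg_eq_add] at this

lemma norm_two_mul_le {S : Type u} [NormedCommRing S] [IsUltrametricDist S] (x : S) :
    ‖2 * x‖ ≤ ‖x‖ := by
  rw [two_mul]
  exact norm_add_le' le_rfl le_rfl

/-- small roots are unique -/
lemma root_unique {S : Type u} [NormedCommRing S] [IsUltrametricDist S] [CompleteSpace S]
    {y z : S} (hy : ‖y‖ < 1) (hz : ‖z‖ < 1) (h : y ^ 2 + y = z ^ 2 + z) : y = z := by
  have h1 : IsUnit (1 + (y + z)) := isUnit_one_add _ (norm_add_lt hy hz)
  have h2 : (1 + (y + z)) * (y - z) = 0 := by linear_combination h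
  have h3 := (h1.mul_right_eq_zero).1 h2
  exact sub_eq_zero.1 h3

namespace Par

variable {k : Type u} [NontriviallyNormedField k] [IsUltrametricDist k] [CompleteSpace k]

/-- `c³` -/
def c3 {k : Type u} [NormedField k] (Q : Par k) : k := Q.c ^ 3
/-- the linear coefficient -/
def α {k : Type u} [NormedField k] (Q : Par k) : k := Q.a4 * Q.c ^ 4

section
variable {k : Type u} [NormedField k] (Q : Par k)

lemma c3_ne : Q.c3 ≠ 0 := pow_ne_zero _ Q.hc0
lemma norm_c3 : ‖Q.c3‖ < 1 := by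
  rw [c3, norm_pow]
  exact pow_lt_one₀ (norm_nonneg _) Q.hc (by norm_num)
lemma norm_α : ‖Q.α‖ < 1 := by
  rw [α, norm_mul, norm_pow]
  calc ‖Q.a4‖ * ‖Q.c‖ ^ 4 ≤ 1 * ‖Q.c‖ ^ 4 :=
        mul_le_mul_of_nonneg_right Q.ha4 (pow_nonneg (norm_nonneg _) _)
    _ = ‖Q.c‖ ^ 4 := one_mul _
    _ < 1 := pow_lt_one₀ (norm_nonneg _) Q.hc (by norm_num)

end

section
variable {k : Type u} [NormedField k] [IsUltrametricDist k] (Q : Par k)

lemma norm_P_le : ‖Tate.P Q.α‖ ≤ 1 := (Tate.W_P Q.norm_α).2.le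

lemma norm_negC_le : ‖-(Tate.C Q.c3 : Tate k Unit)‖ ≤ 1 := by
  rw [norm_neg, Tate.norm_C]
  exact Q.norm_c3.le

/-- the affinoid algebra of the curve -/
def A (Q : Par k) : Type u :=
  QuadraticAlgebra (Tate k Unit) (Tate.P Q.α) (-(Tate.C Q.c3 : Tate k Unit))

noncomputable instance : NormedCommRing Q.A := Quad.ncr Q.norm_P_le Q.norm_negC_le

instance : IsUltrametricDist Q.A := Quad.ultra Q.norm_P_le Q.norm_negC_le

instance : NormOneClass Q.A := Quad.normOne Q.norm_P_le Q.norm_negC_le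

instance [CompleteSpace k] : CompleteSpace Q.A := Quad.complete Q.norm_P_le Q.norm_negC_le

/-- the first coordinate -/
def re {Q : Par k} (z : Q.A) : Tate k Unit := QuadraticAlgebra.re z
/-- the second coordinate -/
def im {Q : Par k} (z : Q.A) : Tate k Unit := QuadraticAlgebra.im z
/-- an element with given coordinates -/
def mk' (Q : Par k) (a b : Tate k Unit) : Q.A := (⟨a, b⟩ : QuadraticAlgebra _ _ _)

variable {Q}

lemma ext' {z w : Q.A} (h1 : re z = re w) (h2 : im z = im w) : z = w := QuadraticAlgebra.ext h1 h2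

@[simp] lemma re_mk (a b : Tate k Unit) : re (mk' Q a b) = a := rfl
@[simp] lemma im_mk (a b : Tate k Unit) : im (mk' Q a b) = b := rfl
@[simp] lemma re_add (z w : Q.A) : re (z + w) = re z + re w := rfl
@[simp] lemma im_add (z w : Q.A) : im (z + w) = im z + im w := rfl
@[simp] lemma re_sub (z w : Q.A) : re (z - w) = re z - re w := rfl
@[simp] lemma im_sub (z w : Q.A) : im (z - w) = im z - im w := rfl
@[simp] lemma re_neg (z : Q.A) : re (-z) = -re z := rfl
@[simp] lemma im_neg (z : Q.A) : im (-z) = -im z := rfl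
@[simp] lemma re_zero : re (0 : Q.A) = 0 := rfl
@[simp] lemma im_zero : im (0 : Q.A) = 0 := rfl
@[simp] lemma re_one : re (1 : Q.A) = 1 := rfl
@[simp] lemma im_one : im (1 : Q.A) = 0 := rfl
lemma re_mul (z w : Q.A) : re (z * w) = re z * re w + Tate.P Q.α * im z * im w := rfl
lemma im_mul (z w : Q.A) :
    im (z * w) = re z * im w + im z * re w + -(Tate.C Q.c3) * im z * im w := rfl
lemma norm_A (z : Q.A) : ‖z‖ = max ‖re z‖ ‖im z‖ := rfl

variable (Q)

/-- the inclusion of the functions on the disc -/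
noncomputable def ι : Tate k Unit →+* Q.A where
  toFun a := mk' Q a 0
  map_one' := rfl
  map_zero' := rfl
  map_add' a b := ext' (by simp) (by simp)
  map_mul' a b := ext' (by simp [re_mul]) (by simp [im_mul])

/-- the coordinate `y` -/
noncomputable def ω : Q.A := mk' Q 0 1

@[simp] lemma re_ι (a : Tate k Unit) : re (Q.ι a) = a := rfl
@[simp] lemma im_ι (a : Tate k Unit) : im (Q.ι a) = 0 := rfl
@[simp] lemma re_ω : re Q.ω = 0 := rfl
@[simp] lemma im_ω : im Q.ω = 1 := rfl

lemma norm_ι (a : Tate k Unit) : ‖Q.ι a‖ = ‖a‖ := by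
  rw [norm_A, re_ι, im_ι, norm_zero, max_eq_left (norm_nonneg _)]

lemma norm_ω : ‖Q.ω‖ = 1 := by
  rw [norm_A, re_ω, im_ω, norm_zero, norm_one, max_eq_right zero_le_one]

lemma eq_add (z : Q.A) : z = Q.ι (re z) + Q.ι (im z) * Q.ω :=
  ext' (by simp [re_mul]) (by simp [im_mul])

lemma ω_sq : Q.ω * Q.ω = Q.ι (Tate.P Q.α) - Q.ι (Tate.C Q.c3) * Q.ω :=
  ext' (by simp [re_mul]) (by simp [im_mul])

lemma ι_injective : Function.Injective Q.ι := fun a b h => by
  have := congrArg re h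
  simpa using this

/-- constants -/
noncomputable def cst : k →+* Q.A := Q.ι.comp Tate.C

noncomputable instance : Algebra k Q.A := Q.cst.toAlgebra

lemma norm_cst (a : k) : ‖Q.cst a‖ = ‖a‖ := by
  change ‖Q.ι (Tate.C a)‖ = _
  rw [norm_ι, Tate.norm_C]

/-- the coordinate `x` -/
noncomputable def ξ : Q.A := Q.ι (Tate.X ())

lemma norm_ξ : ‖Q.ξ‖ = 1 := by rw [ξ, norm_ι, Tate.norm_X]

lemma curve_eq : Q.ω * Q.ω + Q.cst Q.c3 * Q.ω = Q.ξ ^ 3 + Q.cst Q.α * Q.ξ := by
  rw [ω_sq]
  change Q.ι _ - Q.ι (Tate.C Q.c3) * Q.ω + Q.ι (Tate.C Q.c3) * Q.ω = _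
  rw [sub_add_cancel, Tate.P, map_add, map_pow, map_mul]
  rfl

/-- the ring hom given by a point of the curve -/
noncomputable def pt [CompleteSpace k] (x y : k) (hx : ‖x‖ ≤ 1)
    (h : y * y + Q.c3 * y = x ^ 3 + Q.α * x) : Q.A →+* k where
  toFun z := Tate.ev x hx (re z) + Tate.ev x hx (im z) * y
  map_one' := by simp
  map_zero' := by simp
  map_add' z w := by rw [re_add, im_add, map_add, map_add]; ring
  map_mul' z w := by
    rw [re_mul, im_mul, map_add, map_add, map_add, map_mul, map_mul, map_mul, map_mul, map_mul,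
      map_mul, map_mul, map_neg, Tate.ev_C, Tate.P, map_add, map_mul, map_pow, Tate.ev_X,
      Tate.ev_C]
    linear_combination (-Tate.ev x hx (im z) * Tate.ev x hx (im w)) * h

end

end Par

end Pool.Agent.N194.BQ
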