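import Pool.Agent.N194.BQ.Lin

/-!
# Smooth affinoid algebras
-/

set_option autoImplicit false

namespace Pool.Agent.N194.BQ

universe u

/-- The `r × r` minor, in the columns `e`, of the Jacobian matrix `(∂f_i/∂X_j)` of a family
`f₁, …, f_r` of elements of the Tate algebra `k⟨X₁, …, X_n⟩`. -/
noncomputable def jacobianMinor {k : Type u} [NontriviallyNormedField k] [IsUltrametricDist k]
    {n r : ℕ} (f : Fin r → Tate k (Fin n)) (e : Fin r → Fin n) : Tate k (Fin n) :=
  Matrix.det (Matrix.of fun i j => Tate.pderiv (e j) (f i))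

/-- The `k`-algebra `A`, with its norm, is a smooth affinoid algebra presented as
`k⟨X₁, …, X_n⟩ / (f₁, …, f_r)` with the `r × r` minors of the Jacobian matrix generating the unit
ideal of `A`. The norm of `A` is required to be equivalent to the residue norm. (By the Jacobian
criterion `Sp A` is then smooth over `k`, of pure dimension `n - r`.) -/
def IsSmoothAffinoid (k : Type u) [NontriviallyNormedField k] [IsUltrametricDist k]
    (A : Type u) [NormedCommRing A] [Algebra k A] (n r : ℕ) : Prop :=
  ∃ (π : Tate k (Fin n) →ₐ[k] A) (f : Fin r → Tate k (Fin n)),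
    Function.Surjective π ∧
    (∃ C : ℝ, 0 < C ∧ (∀ g, ‖π g‖ ≤ C * ‖g‖) ∧ ∀ z, ∃ g, π g = z ∧ ‖g‖ ≤ C * ‖z‖) ∧
    RingHom.ker π = Ideal.span (Set.range f) ∧
    Ideal.span (Set.range fun e : Fin r → Fin n => π (jacobianMinor f e)) = ⊤

end Pool.Agent.N194.BQ
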