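import Pool.Agent.N194.BQ.Tate

/-!
# Evaluation of restricted power series
-/

set_option autoImplicit false

namespace Pool.Agent.N194.BQ

open Filter Topology

universe u v w

variable {R : Type u} [NormedCommRing R] [IsUltrametricDist R] {σ : Type v}
variable {S : Type w} [NormedCommRing S] [IsUltrametricDist S] [CompleteSpace S] [NormOneClass S]

namespace Tate

/-- the monomial `x ^ t` -/
def mon (x : σ → S) (t : σ →₀ ℕ) : S := t.prod fun i n => x i ^ n

omit [IsUltrametricDist S] [CompleteSpace S] in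
lemma norm_mon_le {x : σ → S} (hx : ∀ i, ‖x i‖ ≤ 1) (t : σ →₀ ℕ) : ‖mon x t‖ ≤ 1 := by
  unfold mon Finsupp.prod
  refine (Finset.norm_prod_le _ _).trans ?_
  refine Finset.prod_le_one (fun _ _ => norm_nonneg _) fun i _ => ?_
  exact (norm_pow_le _ _).trans (pow_le_one₀ (norm_nonneg _) (hx i))

omit [IsUltrametricDist S] [CompleteSpace S] [NormOneClass S] in
lemma mon_add (x : σ → S) (s t : σ →₀ ℕ) : mon x (s + t) = mon x s * mon x t := by
  classical
  unfold mon
  exact Finsupp.prod_add_index' (fun _ => pow_zero _) (fun _ _ _ => pow_add _ _ _)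

omit [IsUltrametricDist S] [CompleteSpace S] [NormOneClass S] in
@[simp] lemma mon_zero (x : σ → S) : mon x 0 = 1 := by
  unfold mon
  exact Finsupp.prod_zero_index

omit [IsUltrametricDist S] [CompleteSpace S] [NormOneClass S] in
lemma mon_single (x : σ → S) (i : σ) (n : ℕ) : mon x (Finsupp.single i n) = x i ^ n := by
  unfold mon
  exact Finsupp.prod_single_index (pow_zero _)

variable (φ : R →+* S) (hφ : ∀ r, ‖φ r‖ ≤ ‖r‖) (x : σ → S) (hx : ∀ i, ‖x i‖ ≤ 1)

include hφ hx

omit [IsUltrametricDist S] [CompleteSpace S] in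
lemma norm_term_le (f : Tate R σ) (t : σ →₀ ℕ) :
    ‖φ (coeff t f) * mon x t‖ ≤ ‖coeff t f‖ := by
  refine (norm_mul_le _ _).trans ?_
  calc ‖φ (coeff t f)‖ * ‖mon x t‖ ≤ ‖coeff t f‖ * 1 :=
        mul_le_mul (hφ _) (norm_mon_le hx t) (norm_nonneg _) (norm_nonneg _)
    _ = _ := mul_one _

omit [IsUltrametricDist S] [CompleteSpace S] in
lemma tendsto_term (f : Tate R σ) :
    Tendsto (fun t => φ (coeff t f) * mon x t) cofinite (𝓝 0) :=
  squeeze_zero_norm (norm_term_le φ hφ x hx f) (tendsto_norm_coeff f)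

lemma summable_term (f : Tate R σ) : Summable fun t => φ (coeff t f) * mon x t :=
  NonarchimedeanAddGroup.summable_of_tendsto_cofinite_zero (tendsto_term φ hφ x hx f)

/-- The evaluation homomorphism `f ↦ ∑ φ(f_t) x^t`. -/
noncomputable def eval : Tate R σ →+* S where
  toFun f := ∑' t, φ (coeff t f) * mon x t
  map_zero' := by simp
  map_one' := by
    classical
    rw [tsum_eq_single 0]
    · rw [coeff_one, if_pos rfl, map_one, mon_zero, mul_one]
    · intro t ht
      rw [coeff_one, if_neg ht, map_zero, zero_mul]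
  map_add' f g := by
    rw [← (summable_term φ hφ x hx f).tsum_add (summable_term φ hφ x hx g)]
    refine tsum_congr fun t => ?_
    rw [map_add, map_add, add_mul]
  map_mul' f g := by
    classical
    have h1 : Tendsto (fun p : (σ →₀ ℕ) × (σ →₀ ℕ) =>
        (φ (coeff p.1 f) * mon x p.1) * (φ (coeff p.2 g) * mon x p.2)) cofinite (𝓝 0) :=
      tendsto_mul_cofinite_nhds_zero (tendsto_term φ hφ x hx f) (tendsto_term φ hφ x hx g)
    have h2 := NonarchimedeanAddGroup.summable_of_tendsto_cofinite_zero h1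
    rw [(summable_term φ hφ x hx f).tsum_mul_tsum_eq_tsum_sum_antidiagonal
      (summable_term φ hφ x hx g) h2]
    refine tsum_congr fun t => ?_
    rw [coeff_mul, map_sum, Finset.sum_mul]
    refine Finset.sum_congr rfl fun p hp => ?_
    rw [map_mul, ← Finset.HasAntidiagonal.mem_antidiagonal.1 hp, mon_add]
    ring

lemma eval_def (f : Tate R σ) : eval φ hφ x hx f = ∑' t, φ (coeff t f) * mon x t := rfl

lemma norm_eval_le (f : Tate R σ) : ‖eval φ hφ x hx f‖ ≤ ‖f‖ := by
  rw [eval_def]
  exact IsUltrametricDist.norm_tsum_le_of_forall_le_of_nonneg (norm_nonneg _)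
    fun t => (norm_term_le φ hφ x hx f t).trans (norm_coeff_le f t)

@[simp] lemma eval_monomial (t : σ →₀ ℕ) (a : R) :
    eval φ hφ x hx (monomial t a) = φ a * mon x t := by
  classical
  rw [eval_def, tsum_eq_single t]
  · rw [coeff_monomial, if_pos rfl]
  · intro s hs
    rw [coeff_monomial, if_neg hs, map_zero, zero_mul]

@[simp] lemma eval_C (a : R) : eval φ hφ x hx (C a) = φ a := by
  have := eval_monomial φ hφ x hx 0 a
  rwa [mon_zero, mul_one] at this

@[simp] lemma eval_X (i : σ) : eval φ hφ x hx (X i) = x i := by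
  rw [X, eval_monomial, map_one, one_mul, mon_single, pow_one]

end Tate

end Pool.Agent.N194.BQ
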