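import Pool.Agent.N194.BQ.Counter

/-!
# The affinoid presentation of the curve, and the Jacobian criterion
-/

set_option autoImplicit false
set_option linter.unusedSectionVars false
set_option maxHeartbeats 4000000

namespace Pool.Agent.N194.BQ

open Filter Topology

universe u v w

namespace Par

variable {k : Type u} [NontriviallyNormedField k] [IsUltrametricDist k] [CompleteSpace k]
  (Q : Par k)

/-- the Tate algebra in two variables -/
abbrev T2 (k : Type u) [NormedField k] [IsUltrametricDist k] : Type u := Tate k (Fin 2)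

/-- the images of the two variables -/
noncomputable def xx : Fin 2 → Q.A := ![Q.ξ, Q.ω]

lemma norm_xx (i : Fin 2) : ‖Q.xx i‖ ≤ 1 := by
  fin_cases i
  · exact Q.norm_ξ.le
  · exact Q.norm_ω.le

/-- the presentation -/
noncomputable def π : T2 k →+* Q.A :=
  Tate.eval Q.cst (fun r => (Q.norm_cst r).le) Q.xx Q.norm_xx

lemma π_C (a : k) : Q.π (Tate.C a) = Q.cst a := Tate.eval_C _ _ _ _ _
lemma π_X0 : Q.π (Tate.X 0) = Q.ξ := Tate.eval_X _ _ _ _ _
lemma π_X1 : Q.π (Tate.X 1) = Q.ω := Tate.eval_X _ _ _ _ _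
lemma norm_π_le (f : T2 k) : ‖Q.π f‖ ≤ ‖f‖ := Tate.norm_eval_le _ _ _ _ _

/-- the presentation, as a `k`-algebra homomorphism -/
noncomputable def πa : T2 k →ₐ[k] Q.A where
  __ := Q.π
  commutes' a := Q.π_C a

/-- the inclusion of the functions of the first variable -/
noncomputable def i2 : Tate k Unit →+* T2 k :=
  Tate.eval Tate.C (fun r => (Tate.norm_C r).le) (fun _ => Tate.X 0) (fun _ => (Tate.norm_X _).le)

lemma i2_C (a : k) : i2 (Tate.C a) = (Tate.C a : T2 k) := Tate.eval_C _ _ _ _ _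
lemma i2_X : i2 (Tate.X () : Tate k Unit) = Tate.X 0 := Tate.eval_X _ _ _ _ _
lemma norm_i2_le (f : Tate k Unit) : ‖i2 f‖ ≤ ‖f‖ := Tate.norm_eval_le _ _ _ _ _

lemma π_i2 (f : Tate k Unit) : Q.π (i2 f) = Q.ι f := by
  have : Q.π.comp i2 = Q.ι := by
    refine Tate.ringHom_ext (fun f => ?_) (fun f => ?_) (fun a => ?_) (fun i => ?_)
    · exact (Q.norm_π_le _).trans (norm_i2_le f)
    · exact (Q.norm_ι f).le
    · change Q.π (i2 (Tate.C a)) = _
      rw [i2_C, π_C]
      rfl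
    · change Q.π (i2 (Tate.X ())) = _
      rw [i2_X, π_X0]
      rfl
  exact RingHom.congr_fun this f

/-- the equation of the curve -/
noncomputable def F : T2 k :=
  Tate.X 1 ^ 2 + Tate.C Q.c3 * Tate.X 1 - (Tate.X 0 ^ 3 + Tate.C Q.α * Tate.X 0)

lemma π_F : Q.π Q.F = 0 := by
  rw [F, map_sub, map_add, map_add, map_mul, map_mul, map_pow, map_pow, π_X0, π_X1, π_C, π_C]
  linear_combination Q.curve_eq

lemma i2_P : (i2 (Tate.P Q.α) : T2 k) = Tate.X 0 ^ 3 + Tate.C Q.α * Tate.X 0 := by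
  rw [Tate.P, map_add, map_pow, map_mul, i2_C, i2_X]

/-- division of the powers of `Y` by the equation: the remainders -/
noncomputable def ab : ℕ → Tate k Unit × Tate k Unit
  | 0 => (1, 0)
  | n + 1 => (Tate.P Q.α * (ab n).2, (ab n).1 - Tate.C Q.c3 * (ab n).2)

/-- division of the powers of `Y` by the equation: the quotients -/
noncomputable def qq : ℕ → T2 k
  | 0 => 0
  | n + 1 => Tate.X 1 * qq n + i2 (Q.ab n).2

lemma pow_eq (n : ℕ) :
    (Tate.X 1 : T2 k) ^ n = Q.F * Q.qq n + i2 (Q.ab n).1 + i2 (Q.ab n).2 * Tate.X 1 := by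
  induction n with
  | zero => simp [ab, qq]
  | succ n ih =>
    rw [pow_succ, ih, ab, qq, map_mul, map_sub, map_mul, i2_P, i2_C]
    rw [F]
    ring

lemma norm_ab (n : ℕ) : ‖(Q.ab n).1‖ ≤ 1 ∧ ‖(Q.ab n).2‖ ≤ 1 := by
  induction n with
  | zero => exact ⟨by rw [ab]; exact norm_one.le, by rw [ab, norm_zero]; exact zero_le_one⟩
  | succ n ih =>
    refine ⟨?_, ?_⟩
    · rw [ab]
      refine (norm_mul_le _ _).trans ?_
      calc ‖Tate.P Q.α‖ * ‖(Q.ab n).2‖ ≤ 1 * 1 :=
            mul_le_mul Q.norm_P_le ih.2 (norm_nonneg _) zero_le_one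
        _ = 1 := one_mul _
    · rw [ab]
      refine norm_sub_le' ih.1 ((norm_mul_le _ _).trans ?_)
      calc ‖(Tate.C Q.c3 : Tate k Unit)‖ * ‖(Q.ab n).2‖ ≤ 1 * 1 :=
            mul_le_mul (by rw [Tate.norm_C]; exact Q.norm_c3.le) ih.2 (norm_nonneg _) zero_le_one
        _ = 1 := one_mul _

lemma norm_qq (n : ℕ) : ‖Q.qq n‖ ≤ 1 := by
  induction n with
  | zero => rw [qq, norm_zero]; exact zero_le_one
  | succ n ih =>
    rw [qq]
    refine norm_add_le' ((norm_mul_le _ _).trans ?_) ((norm_i2_le _).trans (Q.norm_ab n).2)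
    rw [Tate.norm_X, one_mul]
    exact ih

lemma norm_pow_mul_le {S : Type v} [NormedCommRing S] [NormOneClass S] (x y : S) (n : ℕ)
    (hx : ‖x‖ ≤ 1) (hy : ‖y‖ ≤ 1) : ‖x ^ n * y‖ ≤ 1 := by
  calc ‖x ^ n * y‖ ≤ ‖x ^ n‖ * ‖y‖ := norm_mul_le _ _
    _ ≤ 1 * 1 := mul_le_mul ((norm_pow_le _ _).trans (pow_le_one₀ (norm_nonneg _) hx)) hy
        (norm_nonneg _) zero_le_one
    _ = 1 := one_mul _

/-- the quotient map -/
noncomputable def D : T2 k →+ T2 k :=
  Tate.lin Tate.C (fun r => (Tate.norm_C r).le)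
    (fun t => Tate.X 0 ^ (t 0) * Q.qq (t 1))
    (fun _ => norm_pow_mul_le _ _ _ (Tate.norm_X _).le (Q.norm_qq _))

/-- the first remainder map -/
noncomputable def La : T2 k →+ Tate k Unit :=
  Tate.lin Tate.C (fun r => (Tate.norm_C r).le)
    (fun t => Tate.X () ^ (t 0) * (Q.ab (t 1)).1)
    (fun _ => norm_pow_mul_le _ _ _ (Tate.norm_X _).le (Q.norm_ab _).1)

/-- the second remainder map -/
noncomputable def Lb : T2 k →+ Tate k Unit :=
  Tate.lin Tate.C (fun r => (Tate.norm_C r).le)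
    (fun t => Tate.X () ^ (t 0) * (Q.ab (t 1)).2)
    (fun _ => norm_pow_mul_le _ _ _ (Tate.norm_X _).le (Q.norm_ab _).2)

lemma continuous_i2 : Continuous (i2 : Tate k Unit → T2 k) :=
  (AddMonoidHomClass.lipschitz_of_bound (i2 : Tate k Unit →+* T2 k) 1 fun f => by
    rw [one_mul]; exact norm_i2_le f).continuous

lemma division (g : T2 k) : g = Q.F * Q.D g + i2 (Q.La g) + i2 (Q.Lb g) * Tate.X 1 := by
  let G1 : T2 k →+ T2 k := AddMonoidHom.id _
  let G2 : T2 k →+ T2 k :=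
    (AddMonoidHom.mulLeft Q.F).comp Q.D + (i2.toAddMonoidHom).comp Q.La +
      (AddMonoidHom.mulRight (Tate.X 1)).comp ((i2.toAddMonoidHom).comp Q.Lb)
  have c1 : Continuous G1 := continuous_id
  have cD : Continuous Q.D := Tate.continuous_lin _ _ _ _
  have cA : Continuous Q.La := Tate.continuous_lin _ _ _ _
  have cB : Continuous Q.Lb := Tate.continuous_lin _ _ _ _
  have c2 : Continuous G2 :=
    ((continuous_const.mul cD).add (continuous_i2.comp cA)).add
      ((continuous_i2.comp cB).mul continuous_const)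
  have : G1 = G2 := by
    refine Tate.addHom_ext c1 c2 fun t a => ?_
    change Tate.monomial t a = Q.F * Q.D (Tate.monomial t a) + i2 (Q.La (Tate.monomial t a)) +
      i2 (Q.Lb (Tate.monomial t a)) * Tate.X 1
    rw [D, La, Lb, Tate.lin_monomial, Tate.lin_monomial, Tate.lin_monomial, map_mul, map_mul,
      map_mul, map_mul, map_pow, i2_C, i2_X, Tate.monomial_eq]
    have h1 : Tate.mon (Tate.X : Fin 2 → T2 k) t = Tate.X 0 ^ (t 0) * Tate.X 1 ^ (t 1) := by
      rw [Tate.mon, Finsupp.prod_fintype _ _ (fun _ => pow_zero _), Fin.prod_univ_two]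
    rw [h1, Q.pow_eq (t 1)]
    ring
  exact DFunLike.congr_fun this g

lemma ker_π : RingHom.ker Q.π = Ideal.span {Q.F} := by
  apply le_antisymm
  · intro g hg
    rw [RingHom.mem_ker, Q.division g, map_add, map_add, map_mul, map_mul, π_F, zero_mul, zero_add,
      π_i2, π_i2, π_X1] at hg
    have h1 : Q.La g = 0 := by
      have := congrArg re hg
      simpa [re_mul] using this
    have h2 : Q.Lb g = 0 := by
      have := congrArg im hg
      simpa [im_mul] using this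
    rw [Ideal.mem_span_singleton, Q.division g, h1, h2, map_zero, zero_mul, add_zero, add_zero]
    exact ⟨_, rfl⟩
  · rw [Ideal.span_le, Set.singleton_subset_iff]
    exact Q.π_F

lemma exists_lift (z : Q.A) : ∃ g, Q.π g = z ∧ ‖g‖ ≤ ‖z‖ := by
  refine ⟨i2 (re z) + i2 (im z) * Tate.X 1, ?_, ?_⟩
  · rw [map_add, map_mul, π_i2, π_i2, π_X1, ← eq_add]
  · refine norm_add_le' ((norm_i2_le _).trans (le_max_left _ _)) ?_
    refine (norm_mul_le _ _).trans ?_
    rw [Tate.norm_X, mul_one]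
    exact (norm_i2_le _).trans (le_max_right _ _)

lemma pderiv0_F : Tate.pderiv 0 Q.F = -(3 * Tate.X 0 ^ 2 + Tate.C Q.α) := by
  apply Tate.toMv_injective
  rw [Tate.toMv_pderiv, F]
  simp only [map_sub, map_add, map_mul, map_pow, map_neg, map_ofNat, Tate.toMv_X, Tate.toMv_C]
  simp only [Derivation.leibniz, MvPowerSeries.pderiv_pow, MvPowerSeries.pderiv_X_self,
    MvPowerSeries.pderiv_C]
  rw [MvPowerSeries.pderiv_X_of_ne (i := (0 : Fin 2)) (j := 1) (by decide)]
  simp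

lemma pderiv1_F : Tate.pderiv 1 Q.F = 2 * Tate.X 1 + Tate.C Q.c3 := by
  apply Tate.toMv_injective
  rw [Tate.toMv_pderiv, F]
  simp only [map_sub, map_add, map_mul, map_pow, map_neg, map_ofNat, Tate.toMv_X, Tate.toMv_C]
  simp only [Derivation.leibniz, MvPowerSeries.pderiv_pow, MvPowerSeries.pderiv_X_self,
    MvPowerSeries.pderiv_C]
  rw [MvPowerSeries.pderiv_X_of_ne (i := (1 : Fin 2)) (j := 0) (by decide)]
  simp

/-- the Jacobian criterion -/
lemma jacobian (h : ((3 : k) ≠ 0 ∧ Q.a4 = 0) ∨ ((3 : k) = 0 ∧ Q.a4 = 1)) :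
    Ideal.span {Q.π (Tate.pderiv 0 Q.F), Q.π (Tate.pderiv 1 Q.F)} = (⊤ : Ideal Q.A) := by
  have e0 : Q.π (Tate.pderiv 0 Q.F) = -(Q.cst 3 * Q.ξ ^ 2 + Q.cst Q.α) := by
    rw [pderiv0_F, map_neg, map_add, map_mul, map_pow, map_ofNat, π_X0, π_C, map_ofNat]
  have e1 : Q.π (Tate.pderiv 1 Q.F) = 2 * Q.ω + Q.cst Q.c3 := by
    rw [pderiv1_F, map_add, map_mul, map_ofNat, π_X1, π_C]
  rcases h with ⟨h3, ha⟩ | ⟨h3, ha⟩
  · have hα : Q.α = 0 := by rw [α, ha, zero_mul]
    have hu : IsUnit (Q.cst (3 * Q.c3 ^ 2)) :=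
      (isUnit_iff_ne_zero.2 (mul_ne_zero h3 (pow_ne_zero _ Q.c3_ne))).map Q.cst
    refine Ideal.eq_top_of_isUnit_mem _ ?_ hu
    rw [Ideal.mem_span_pair]
    refine ⟨4 * Q.ξ, 3 * (2 * Q.ω + Q.cst Q.c3), ?_⟩
    have hc := Q.curve_eq
    rw [hα, map_zero, zero_mul, add_zero] at hc
    rw [e0, e1, hα, map_zero, map_mul, map_pow, map_ofNat]
    linear_combination 12 * hc
  · have hu : IsUnit (Q.cst (-Q.α)) := by
      refine (isUnit_iff_ne_zero.2 (neg_ne_zero.2 ?_)).map Q.cst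
      rw [α, ha, one_mul]
      exact pow_ne_zero _ Q.hc0
    refine Ideal.eq_top_of_isUnit_mem _ ?_ hu
    refine Ideal.subset_span (Or.inl ?_)
    rw [e0, h3, map_zero, zero_mul, zero_add, map_neg]

end Par

end Pool.Agent.N194.BQ
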