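import Pool.Agent.N194.BQ.Defs
import Pool.Agent.N194.BQ.Pres

/-!
# The smooth affinoid curve and its exotic line bundle
-/

set_option autoImplicit false
set_option linter.unusedSectionVars false
set_option maxHeartbeats 4000000

namespace Pool.Agent.N194.BQ

open TensorProduct

universe u v w

namespace Par

variable {k : Type u} [NontriviallyNormedField k] [IsUltrametricDist k] [CompleteSpace k]
  (Q : Par k)

theorem isSmoothAffinoid (h : ((3 : k) ≠ 0 ∧ Q.a4 = 0) ∨ ((3 : k) = 0 ∧ Q.a4 = 1)) :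
    IsSmoothAffinoid k Q.A 2 1 := by
  refine ⟨Q.πa, fun _ => Q.F, ?_, ⟨1, one_pos, ?_, ?_⟩, ?_, ?_⟩
  · intro z
    obtain ⟨g, hg, _⟩ := Q.exists_lift z
    exact ⟨g, hg⟩
  · intro g
    rw [one_mul]
    exact Q.norm_π_le g
  · intro z
    obtain ⟨g, hg, hg'⟩ := Q.exists_lift z
    exact ⟨g, hg, by rw [one_mul]; exact hg'⟩
  · have h1 : Set.range (fun _ : Fin 1 => Q.F) = {Q.F} := Set.range_const
    rw [h1, ← Q.ker_π]
    rfl
  · rw [eq_top_iff, ← Q.jacobian h, Ideal.span_le]
    rintro _ (rfl | rfl)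
    · refine Ideal.subset_span ⟨fun _ => 0, ?_⟩
      change Q.π _ = _
      congr 1
      simp [jacobianMinor, Matrix.det_fin_one]
    · refine Ideal.subset_span ⟨fun _ => 1, ?_⟩
      change Q.π _ = _
      congr 1
      simp [jacobianMinor, Matrix.det_fin_one]

theorem s_mem_nonZeroDivisors : Q.s ∈ nonZeroDivisors Q.B := by
  rw [mem_nonZeroDivisors_iff]
  exact ⟨fun z hz => Q.s_mul_eq_zero z hz, fun z hz => Q.s_mul_eq_zero z (by rwa [mul_comm] at hz)⟩

/-- the inverse ideal, up to the factor `s` -/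
noncomputable def I' : Ideal Q.B := Ideal.span {Q.s, Q.u'}

theorem I_mul_I' : Q.I * Q.I' = Ideal.span {Q.s} := by
  have hs' : Q.s ∈ Q.I' := Ideal.subset_span (by simp)
  have hu' : Q.u' ∈ Q.I' := Ideal.subset_span (by simp)
  apply le_antisymm
  · rw [Ideal.mul_le]
    intro x hx y hy
    obtain ⟨a, b, rfl⟩ := Ideal.mem_span_pair.1 hx
    obtain ⟨a', b', rfl⟩ := Ideal.mem_span_pair.1 hy
    rw [Ideal.mem_span_singleton]
    refine ⟨a * a' * Q.s + a * b' * Q.u' + b * a' * Q.u + b * b' *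
      ((Tate.C Q.ξ) ^ 2 + Tate.C Q.ξ * Q.xT + Q.xT ^ 2 + Q.cB Q.α), ?_⟩
    linear_combination (b * b') * Q.u_mul_u'
  · rw [Ideal.span_singleton_le_iff_mem]
    have h := Q.gen_sum
    rw [← h]
    refine Ideal.sum_mem _ fun i _ => Ideal.mul_mem_mul (Q.gen_mem i) ?_
    fin_cases i
    · exact Ideal.mul_mem_left _ _ hu'
    · exact Ideal.neg_mem_iff _ |>.2 (Ideal.mul_mem_left _ _ hs')

end Par

theorem main (k : Type u) [NontriviallyNormedField k] [IsUltrametricDist k] [CompleteSpace k] :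
    ∃ (A : Type u) (_ : NormedCommRing A) (_ : IsUltrametricDist A) (_ : CompleteSpace A)
      (_ : Algebra k A), IsSmoothAffinoid k A 2 1 ∧
      ∃ I : Ideal (Tate A Unit),
        (∃ (J : Ideal (Tate A Unit)) (s : Tate A Unit),
          s ∈ nonZeroDivisors (Tate A Unit) ∧ I * J = Ideal.span {s}) ∧
        Module.Finite (Tate A Unit) I ∧ Module.Projective (Tate A Unit) I ∧
        ∀ (N : Type v) [AddCommGroup N] [Module A N],
          IsEmpty (I ≃ₗ[Tate A Unit] Tate A Unit ⊗[A] N) := by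
  classical
  obtain ⟨c, hc0, hc⟩ := NormedField.exists_norm_lt_one k
  let Q : Par k :=
    { c := c
      hc0 := norm_pos_iff.1 hc0
      hc := hc
      a4 := if (3 : k) = 0 then 1 else 0
      ha4 := by
        split_ifs
        · rw [norm_one]
        · rw [norm_zero]; exact zero_le_one }
  refine ⟨Q.A, inferInstance, inferInstance, inferInstance, inferInstance, ?_, Q.I, ?_,
    Q.finite_I, Q.projective_I, ?_⟩
  · apply Q.isSmoothAffinoid
    by_cases h3 : (3 : k) = 0
    · right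
      exact ⟨h3, if_pos h3⟩
    · left
      exact ⟨h3, if_neg h3⟩
  · exact ⟨Q.I', Q.s, Q.s_mem_nonZeroDivisors, Q.I_mul_I'⟩
  · intro N _ _
    exact Q.not_extended

end Pool.Agent.N194.BQ
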