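import Pool.Agent.N194.BQ.OneVar

/-!
# Density of the polynomials, continuous linear maps out of the Tate algebra, derivatives
-/

set_option autoImplicit false

namespace Pool.Agent.N194.BQ

open Filter Topology

universe u v w

namespace Tate

section Dense

variable {R : Type u} [NormedCommRing R] [IsUltrametricDist R] {σ : Type v}

lemma hasSum_monomial (f : Tate R σ) : HasSum (fun t => monomial t (coeff t f)) f := by
  classical
  rw [HasSum, Metric.tendsto_nhds]
  intro ε hε
  have h1 := (tendsto_norm_coeff f).eventually (gt_mem_nhds (half_pos hε))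
  rw [eventually_cofinite] at h1
  filter_upwards [eventually_ge_atTop h1.toFinset] with s hs
  rw [dist_eq_norm]
  refine lt_of_le_of_lt (norm_le fun t => ?_) (half_lt_self hε)
  rw [map_sub, map_sum]
  by_cases ht : t ∈ s
  · rw [Finset.sum_eq_single t]
    · rw [coeff_monomial, if_pos rfl, sub_self, norm_zero]
      exact (half_pos hε).le
    · intro b _ hb
      rw [coeff_monomial, if_neg (Ne.symm hb)]
    · intro h
      exact absurd ht h
  · rw [Finset.sum_eq_zero, zero_sub, norm_neg]
    · have : t ∉ h1.toFinset := fun h => ht (hs h)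
      rw [Set.Finite.mem_toFinset, Set.mem_ofPred_eq, not_not] at this
      exact this.le
    · intro b hb
      rw [coeff_monomial, if_neg]
      rintro rfl
      exact ht hb

lemma addHom_ext {M : Type w} [AddCommGroup M] [TopologicalSpace M] [T2Space M]
    {F G : Tate R σ →+ M} (hF : Continuous F) (hG : Continuous G)
    (h : ∀ t a, F (monomial t a) = G (monomial t a)) : F = G := by
  ext f
  have h1 := (hasSum_monomial f).map F hF
  have h2 := (hasSum_monomial f).map G hG
  have h3 : (F ∘ fun t => monomial t (coeff t f)) = G ∘ fun t => monomial t (coeff t f) := by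
    funext t
    exact h _ _
  rw [h3] at h1
  exact h1.unique h2

lemma monomial_eq [NormOneClass R] (t : σ →₀ ℕ) (a : R) :
    monomial t a = C a * mon (X : σ → Tate R σ) t := by
  apply toMv_injective
  rw [toMv_monomial, map_mul, toMv_C, mon, map_finsuppProd]
  simp_rw [map_pow, toMv_X]
  rw [MvPowerSeries.monomial_eq']

/-- a norm non-increasing ring homomorphism is determined by the constants and the variables -/
lemma ringHom_ext [NormOneClass R] {S : Type w} [NormedCommRing S] {F G : Tate R σ →+* S}
    (hF : ∀ f, ‖F f‖ ≤ ‖f‖) (hG : ∀ f, ‖G f‖ ≤ ‖f‖) (hC : ∀ a, F (C a) = G (C a))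
    (hX : ∀ i, F (X i) = G (X i)) : F = G := by
  have cF : Continuous F :=
    (AddMonoidHomClass.lipschitz_of_bound F 1 fun f => by rw [one_mul]; exact hF f).continuous
  have cG : Continuous G :=
    (AddMonoidHomClass.lipschitz_of_bound G 1 fun f => by rw [one_mul]; exact hG f).continuous
  have := addHom_ext (F := F.toAddMonoidHom) (G := G.toAddMonoidHom) cF cG (fun t a => by
    change F (monomial t a) = G (monomial t a)
    rw [monomial_eq, map_mul, map_mul, hC, mon, map_finsuppProd, map_finsuppProd]
    simp_rw [map_pow, hX])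
  ext f
  exact DFunLike.congr_fun this f

end Dense

section Lin

variable {R : Type u} [NormedCommRing R] [IsUltrametricDist R] {σ : Type v}
variable {S : Type w} [NormedCommRing S] [IsUltrametricDist S] [CompleteSpace S]
variable (φ : R →+* S) (hφ : ∀ r, ‖φ r‖ ≤ ‖r‖) (q : (σ →₀ ℕ) → S) (hq : ∀ i, ‖q i‖ ≤ 1)

include hφ hq

omit [IsUltrametricDist S] [CompleteSpace S] in
lemma norm_lterm_le (f : Tate R σ) (t : σ →₀ ℕ) :
    ‖φ (coeff t f) * q t‖ ≤ ‖coeff t f‖ := by
  refine (norm_mul_le _ _).trans ?_
  calc ‖φ (coeff t f)‖ * ‖q t‖ ≤ ‖coeff t f‖ * 1 :=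
        mul_le_mul (hφ _) (hq t) (norm_nonneg _) (norm_nonneg _)
    _ = _ := mul_one _

lemma summable_lterm (f : Tate R σ) : Summable fun t => φ (coeff t f) * q t :=
  NonarchimedeanAddGroup.summable_of_tendsto_cofinite_zero
    (squeeze_zero_norm (norm_lterm_le φ hφ q hq f) (tendsto_norm_coeff f))

/-- the additive map `f ↦ ∑ φ(f_t) q_t` -/
noncomputable def lin : Tate R σ →+ S where
  toFun f := ∑' t, φ (coeff t f) * q t
  map_zero' := by simp
  map_add' f g := by
    rw [← (summable_lterm φ hφ q hq f).tsum_add (summable_lterm φ hφ q hq g)]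
    refine tsum_congr fun t => ?_
    rw [map_add, map_add, add_mul]

lemma lin_def (f : Tate R σ) : lin φ hφ q hq f = ∑' t, φ (coeff t f) * q t := rfl

lemma norm_lin_le (f : Tate R σ) : ‖lin φ hφ q hq f‖ ≤ ‖f‖ := by
  rw [lin_def]
  exact IsUltrametricDist.norm_tsum_le_of_forall_le_of_nonneg (norm_nonneg _)
    fun t => (norm_lterm_le φ hφ q hq f t).trans (norm_coeff_le f t)

lemma lin_monomial (t : σ →₀ ℕ) (a : R) : lin φ hφ q hq (monomial t a) = φ a * q t := by
  classical
  rw [lin_def, tsum_eq_single t]
  · rw [coeff_monomial, if_pos rfl]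
  · intro s hs
    rw [coeff_monomial, if_neg hs, map_zero, zero_mul]

lemma continuous_lin : Continuous (lin φ hφ q hq) :=
  (AddMonoidHomClass.lipschitz_of_bound (lin φ hφ q hq) 1 fun f => by
    rw [one_mul]; exact norm_lin_le φ hφ q hq f).continuous

end Lin

section Deriv

variable {R : Type u} [NormedCommRing R] [IsUltrametricDist R] [NormOneClass R] {σ : Type v}

/-- the partial derivative of a restricted power series -/
noncomputable def pderiv (i : σ) (f : Tate R σ) : Tate R σ :=
  mk (fun t => ((t i + 1 : ℕ) : R) * coeff (t + Finsupp.single i 1) f) (by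
    have h1 : Tendsto (fun t : σ →₀ ℕ => t + Finsupp.single i 1) cofinite cofinite :=
      (add_left_injective (Finsupp.single i 1)).tendsto_cofinite
    refine squeeze_zero (fun _ => norm_nonneg _) (fun t => ?_) ((tendsto_norm_coeff f).comp h1)
    calc ‖((t i + 1 : ℕ) : R) * coeff (t + Finsupp.single i 1) f‖
        ≤ ‖((t i + 1 : ℕ) : R)‖ * ‖coeff (t + Finsupp.single i 1) f‖ := norm_mul_le _ _
      _ ≤ 1 * ‖coeff (t + Finsupp.single i 1) f‖ :=
          mul_le_mul_of_nonneg_right (IsUltrametricDist.norm_natCast_le_one R _) (norm_nonneg _)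
      _ = _ := one_mul _)

lemma toMv_pderiv (i : σ) (f : Tate R σ) :
    toMv (pderiv i f) = MvPowerSeries.pderiv R i (toMv f) := by
  ext t
  rw [MvPowerSeries.coeff_pderiv, ← coeff_def, ← coeff_def, pderiv, coeff_mk, mul_comm]
  push_cast
  rfl

end Deriv

end Tate

end Pool.Agent.N194.BQ
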