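import Pool.Agent.N194.BQ.Eval

/-!
# One variable: the Gauss norm is multiplicative, the Weierstrass degree
-/

set_option autoImplicit false

namespace Pool.Agent.N194.BQ

open Filter Topology

universe u v

section aux

variable {G : Type u} [SeminormedAddCommGroup G] [IsUltrametricDist G]

lemma norm_add_lt {x y : G} {r : ℝ} (hx : ‖x‖ < r) (hy : ‖y‖ < r) : ‖x + y‖ < r :=
  lt_of_le_of_lt (IsUltrametricDist.norm_add_le_max x y) (max_lt hx hy)

lemma norm_add_le' {x y : G} {r : ℝ} (hx : ‖x‖ ≤ r) (hy : ‖y‖ ≤ r) : ‖x + y‖ ≤ r :=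
  (IsUltrametricDist.norm_add_le_max x y).trans (max_le hx hy)

lemma norm_sub_lt {x y : G} {r : ℝ} (hx : ‖x‖ < r) (hy : ‖y‖ < r) : ‖x - y‖ < r := by
  rw [sub_eq_add_neg]
  exact norm_add_lt hx (by rwa [norm_neg])

lemma norm_sub_le' {x y : G} {r : ℝ} (hx : ‖x‖ ≤ r) (hy : ‖y‖ ≤ r) : ‖x - y‖ ≤ r := by
  rw [sub_eq_add_neg]
  exact norm_add_le' hx (by rwa [norm_neg])

lemma norm_sum_lt {ι : Type v} (s : Finset ι) (f : ι → G) {r : ℝ} (hr : 0 < r)
    (h : ∀ i ∈ s, ‖f i‖ < r) : ‖∑ i ∈ s, f i‖ < r := by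
  classical
  induction s using Finset.induction_on with
  | empty => simpa using hr
  | insert a s ha ih =>
    rw [Finset.sum_insert ha]
    exact norm_add_lt (h a (Finset.mem_insert_self _ _))
      (ih fun i hi => h i (Finset.mem_insert_of_mem hi))

lemma norm_add_eq_left {x y : G} (h : ‖y‖ < ‖x‖) : ‖x + y‖ = ‖x‖ := by
  rw [IsUltrametricDist.norm_add_eq_max_of_norm_ne_norm h.ne', max_eq_left h.le]

end aux

namespace Tate

lemma exists_norm_coeff_eq {R : Type u} [NormedCommRing R] [IsUltrametricDist R] {σ : Type v}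
    (f : Tate R σ) : ∃ t, ‖coeff t f‖ = ‖f‖ := by
  by_cases hf : f = 0
  · exact ⟨0, by rw [hf, map_zero, norm_zero, norm_zero]⟩
  have hpos : 0 < ‖f‖ := norm_pos_iff.2 hf
  have h1 := (tendsto_norm_coeff f).eventually (gt_mem_nhds (half_pos hpos))
  rw [eventually_cofinite] at h1
  have hne : {t | ¬ ‖coeff t f‖ < ‖f‖ / 2}.Nonempty := by
    by_contra h
    rw [Set.not_nonempty_iff_eq_empty, Set.eq_empty_iff_forall_notMem] at h
    have : ‖f‖ ≤ ‖f‖ / 2 := norm_le fun t => by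
      have := h t
      simp only [Set.mem_ofPred_eq, not_not] at this
      exact this.le
    linarith
  obtain ⟨t, ht, hmax⟩ := Set.exists_max_image _ (fun t => ‖coeff t f‖) h1 hne
  refine ⟨t, le_antisymm (norm_coeff_le _ _) (norm_le fun s => ?_)⟩
  by_cases hs : ‖coeff s f‖ < ‖f‖ / 2
  · simp only [Set.mem_ofPred_eq, not_lt] at ht
    exact hs.le.trans ht
  · exact hmax s hs

variable {k : Type u} [NormedField k] [IsUltrametricDist k]

/-- the coefficient of `T ^ n` -/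
noncomputable def co (n : ℕ) (f : Tate k Unit) : k := coeff (Finsupp.single () n) f

lemma eq_single (t : Unit →₀ ℕ) : t = Finsupp.single () (t ()) := by
  ext
  simp

lemma coeff_eq_co (t : Unit →₀ ℕ) (f : Tate k Unit) : coeff t f = co (t ()) f := by
  rw [co, ← eq_single]

lemma norm_co_le (n : ℕ) (f : Tate k Unit) : ‖co n f‖ ≤ ‖f‖ := norm_coeff_le _ _

lemma norm_le_co {f : Tate k Unit} {r : ℝ} (h : ∀ n, ‖co n f‖ ≤ r) : ‖f‖ ≤ r :=
  norm_le fun t => by rw [coeff_eq_co]; exact h _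

lemma co_add (n : ℕ) (f g : Tate k Unit) : co n (f + g) = co n f + co n g := map_add _ _ _
lemma co_neg (n : ℕ) (f : Tate k Unit) : co n (-f) = -co n f := map_neg _ _
lemma co_sub (n : ℕ) (f g : Tate k Unit) : co n (f - g) = co n f - co n g := map_sub _ _ _
lemma co_zero (n : ℕ) : co n (0 : Tate k Unit) = 0 := map_zero _

lemma co_mul (n : ℕ) (f g : Tate k Unit) :
    co n (f * g) = ∑ p ∈ Finset.HasAntidiagonal.antidiagonal n, co p.1 f * co p.2 g := by
  classical
  rw [co, coeff_mul, Finsupp.antidiagonal_single, Finset.sum_map]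
  rfl

lemma co_C_mul (n : ℕ) (a : k) (f : Tate k Unit) : co n (C a * f) = a * co n f :=
  coeff_C_mul _ _ _

lemma co_monomial (n m : ℕ) (a : k) :
    co n (monomial (Finsupp.single () m) a) = if n = m then a else 0 := by
  classical
  rw [co, coeff_monomial]
  congr 1
  simp

/-- `W f n`: the largest index at which the Gauss norm is attained is `n`. -/
def W (f : Tate k Unit) (n : ℕ) : Prop := ‖co n f‖ = ‖f‖ ∧ ∀ m, n < m → ‖co m f‖ < ‖f‖

lemma W.mk' {f : Tate k Unit} {n : ℕ} {r : ℝ} (h1 : ∀ m, ‖co m f‖ ≤ r) (h2 : ‖co n f‖ = r)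
    (h3 : ∀ m, n < m → ‖co m f‖ < r) : W f n ∧ ‖f‖ = r := by
  have : ‖f‖ = r := le_antisymm (norm_le_co h1) (h2 ▸ norm_co_le n f)
  exact ⟨⟨by rw [this]; exact h2, by rw [this]; exact h3⟩, this⟩

lemma W.unique {f : Tate k Unit} {n m : ℕ} (h1 : W f n) (h2 : W f m) : n = m := by
  rcases lt_trichotomy n m with h | h | h
  · exact absurd h2.1 (h1.2 m h).ne
  · exact h
  · exact absurd h1.1 (h2.2 n h).ne

lemma W.ne_zero {f : Tate k Unit} {n : ℕ} (h1 : W f n) : f ≠ 0 := by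
  rintro rfl
  have := h1.2 (n + 1) (Nat.lt_succ_self n)
  rw [co_zero, norm_zero, norm_zero] at this
  exact lt_irrefl _ this

lemma W.pos {f : Tate k Unit} {n : ℕ} (h1 : W f n) : 0 < ‖f‖ := norm_pos_iff.2 h1.ne_zero

lemma exists_W {f : Tate k Unit} (hf : f ≠ 0) : ∃ n, W f n := by
  classical
  have hpos : 0 < ‖f‖ := norm_pos_iff.2 hf
  have h1 := (tendsto_norm_coeff f).eventually (gt_mem_nhds hpos)
  rw [eventually_cofinite] at h1
  have h2 : {n : ℕ | ¬ ‖co n f‖ < ‖f‖}.Finite := by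
    refine (h1.preimage (f := fun n : ℕ => (Finsupp.single () n : Unit →₀ ℕ)) ?_)
    exact (Finsupp.single_injective ()).injOn
  obtain ⟨t, ht⟩ := exists_norm_coeff_eq f
  have hne : {n : ℕ | ¬ ‖co n f‖ < ‖f‖}.Nonempty := by
    refine ⟨t (), ?_⟩
    simp only [Set.mem_ofPred_eq]
    rw [← coeff_eq_co, ht]
    exact lt_irrefl _
  obtain ⟨n, hn, hmax⟩ := Set.exists_max_image _ (fun n => n) h2 hne
  refine ⟨n, le_antisymm (norm_co_le _ _) (not_lt.1 hn), fun m hm => ?_⟩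
  by_contra h
  exact absurd (hmax m h) (not_le.2 hm)

lemma W.mul {f g : Tate k Unit} {n m : ℕ} (hf : W f n) (hg : W g m) :
    W (f * g) (n + m) ∧ ‖f * g‖ = ‖f‖ * ‖g‖ := by
  classical
  have hpos : 0 < ‖f‖ * ‖g‖ := mul_pos hf.pos hg.pos
  have key : ∀ i j, (n < i ∨ m < j) → ‖co i f * co j g‖ < ‖f‖ * ‖g‖ := by
    intro i j h
    rw [norm_mul]
    rcases h with h | h
    · calc ‖co i f‖ * ‖co j g‖ ≤ ‖co i f‖ * ‖g‖ :=
            mul_le_mul_of_nonneg_left (norm_co_le _ _) (norm_nonneg _)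
        _ < ‖f‖ * ‖g‖ := mul_lt_mul_of_pos_right (hf.2 i h) hg.pos
    · calc ‖co i f‖ * ‖co j g‖ ≤ ‖f‖ * ‖co j g‖ :=
            mul_le_mul_of_nonneg_right (norm_co_le _ _) (norm_nonneg _)
        _ < ‖f‖ * ‖g‖ := mul_lt_mul_of_pos_left (hg.2 j h) hf.pos
  refine W.mk' (fun l => (norm_co_le l _).trans (norm_mul_le' f g)) ?_ ?_
  · have h1 : (n, m) ∈ Finset.HasAntidiagonal.antidiagonal (n + m) :=
      Finset.HasAntidiagonal.mem_antidiagonal.2 rfl
    rw [co_mul, ← Finset.add_sum_erase _ _ h1]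
    have h2 : ‖co n f * co m g‖ = ‖f‖ * ‖g‖ := by rw [norm_mul, hf.1, hg.1]
    rw [norm_add_eq_left, h2]
    rw [h2]
    refine norm_sum_lt _ _ hpos fun p hp => key _ _ ?_
    rw [Finset.mem_erase, Finset.HasAntidiagonal.mem_antidiagonal] at hp
    by_contra hcon
    push Not at hcon
    apply hp.1
    ext
    · have := hp.2
      omega
    · have := hp.2
      omega
  · intro l hl
    rw [co_mul]
    refine norm_sum_lt _ _ hpos fun p hp => key _ _ ?_
    rw [Finset.HasAntidiagonal.mem_antidiagonal] at hp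
    omega

lemma W.add_of_lt {f g : Tate k Unit} {n : ℕ} (hf : W f n) (h : ‖g‖ < ‖f‖) :
    W (f + g) n ∧ ‖f + g‖ = ‖f‖ := by
  refine W.mk' (fun m => ?_) ?_ fun m hm => ?_
  · rw [co_add]
    exact norm_add_le' (norm_co_le _ _) ((norm_co_le _ _).trans h.le)
  · rw [co_add, norm_add_eq_left, hf.1]
    rw [hf.1]
    exact (norm_co_le _ _).trans_lt h
  · rw [co_add]
    exact norm_add_lt (hf.2 m hm) ((norm_co_le _ _).trans_lt h)

lemma W.add_of_eq {f g : Tate k Unit} {n m : ℕ} (hf : W f n) (hg : W g m) (h : ‖g‖ = ‖f‖)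
    (hmn : m < n) : W (f + g) n ∧ ‖f + g‖ = ‖f‖ := by
  refine W.mk' (fun l => ?_) ?_ fun l hl => ?_
  · rw [co_add]
    exact norm_add_le' (norm_co_le _ _) ((norm_co_le _ _).trans h.le)
  · rw [co_add, norm_add_eq_left, hf.1]
    rw [hf.1, ← h]
    exact hg.2 n hmn
  · rw [co_add]
    exact norm_add_lt (hf.2 l hl) (h ▸ hg.2 l (hmn.trans hl))

lemma W.neg {f : Tate k Unit} {n : ℕ} (hf : W f n) : W (-f) n := by
  refine ⟨?_, fun m hm => ?_⟩
  · rw [co_neg, norm_neg, norm_neg, hf.1]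
  · rw [co_neg, norm_neg, norm_neg]
    exact hf.2 m hm

lemma W_X : W (X () : Tate k Unit) 1 := by
  refine ⟨?_, fun m hm => ?_⟩
  · rw [norm_X, X, co_monomial, if_pos rfl, norm_one]
  · rw [norm_X, X, co_monomial, if_neg (by omega), norm_zero]
    exact zero_lt_one

lemma W.pow {f : Tate k Unit} {n : ℕ} (hf : W f n) (l : ℕ) :
    W (f ^ (l + 1)) ((l + 1) * n) ∧ ‖f ^ (l + 1)‖ = ‖f‖ ^ (l + 1) := by
  induction l with
  | zero => simpa using hf
  | succ l ih =>
    have := ih.1.mul hf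
    rw [ih.2] at this
    rw [pow_succ, pow_succ (‖f‖)]
    refine ⟨?_, this.2⟩
    have h2 : (l + 1 + 1) * n = (l + 1) * n + n := by ring
    rw [h2]
    exact this.1

section Main

variable (c3 x₁ y₁ α : k)

/-- the cubic polynomial `X³ + αX` -/
noncomputable def P : Tate k Unit := X () ^ 3 + C α * X ()

/-- the norm form of the quadratic algebra -/
noncomputable def Nm (a b : Tate k Unit) : Tate k Unit := a * a - C c3 * (a * b) - b * b * P α

variable {c3 x₁ y₁ α}

lemma W_P (hα : ‖α‖ < 1) : W (P α) 3 ∧ ‖P α‖ = 1 := by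
  have h1 := (W_X (k := k)).pow 2
  rw [norm_X, one_pow] at h1
  have h2 : ‖(C α * X () : Tate k Unit)‖ < ‖(X () ^ (2 + 1) : Tate k Unit)‖ := by
    rw [h1.2]
    refine (norm_mul_le _ _).trans_lt ?_
    rw [norm_C, norm_X, mul_one]
    exact hα
  have h3 := h1.1.add_of_lt h2
  rw [h1.2] at h3
  exact h3

/-- parity: the norm form -/
lemma W_Nm (hc : ‖c3‖ < 1) (hα : ‖α‖ < 1) {a b : Tate k Unit} (hab : ¬ (a = 0 ∧ b = 0)) :
    (‖b‖ < ‖a‖ ∧ ∃ n, W a n ∧ W (Nm c3 α a b) (2 * n)) ∨ ∃ l, 3 ≤ l ∧ W (Nm c3 α a b) l := by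
  obtain ⟨hP, hP1⟩ := W_P (k := k) hα
  by_cases hba : ‖b‖ < ‖a‖
  · left
    refine ⟨hba, ?_⟩
    have ha : a ≠ 0 := by
      rintro rfl
      rw [norm_zero] at hba
      exact absurd hba (not_lt.2 (norm_nonneg _))
    have hpos : 0 < ‖a‖ := norm_pos_iff.2 ha
    obtain ⟨n, hn⟩ := exists_W ha
    refine ⟨n, hn, ?_⟩
    have h1 := hn.mul hn
    have h2 : ‖-(C c3 * (a * b) + b * b * P α)‖ < ‖a * a‖ := by
      rw [h1.2, norm_neg]
      refine norm_add_lt ?_ ?_
      · calc ‖C c3 * (a * b)‖ ≤ ‖(C c3 : Tate k Unit)‖ * (‖a‖ * ‖b‖) :=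
              (norm_mul_le _ _).trans (mul_le_mul_of_nonneg_left (norm_mul_le _ _) (norm_nonneg _))
          _ ≤ 1 * (‖a‖ * ‖b‖) := by
              refine mul_le_mul_of_nonneg_right ?_ (mul_nonneg (norm_nonneg _) (norm_nonneg _))
              rw [norm_C]; exact hc.le
          _ = ‖a‖ * ‖b‖ := one_mul _
          _ < ‖a‖ * ‖a‖ := mul_lt_mul_of_pos_left hba hpos
      · calc ‖b * b * P α‖ ≤ ‖b * b‖ * ‖P α‖ := norm_mul_le _ _
          _ = ‖b * b‖ := by rw [hP1, mul_one]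
          _ ≤ ‖b‖ * ‖b‖ := norm_mul_le _ _
          _ < ‖a‖ * ‖a‖ := mul_lt_mul'' hba hba (norm_nonneg _) (norm_nonneg _)
    have h3 := (h1.1.add_of_lt h2).1
    have h4 : a * a + -(C c3 * (a * b) + b * b * P α) = Nm c3 α a b := by
      unfold Nm; ring
    rw [h4] at h3
    rw [two_mul]
    exact h3
  · right
    push Not at hba
    have hb : b ≠ 0 := by
      rintro rfl
      rw [norm_zero] at hba
      exact hab ⟨norm_le_zero_iff.1 hba, rfl⟩
    have hpos : 0 < ‖b‖ := norm_pos_iff.2 hb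
    obtain ⟨m, hm⟩ := exists_W hb
    have h1 := (hm.mul hm)
    have h2 := h1.1.mul hP
    rw [hP1, mul_one, h1.2] at h2
    have h5 : ‖C c3 * (a * b)‖ < ‖b‖ * ‖b‖ := by
      calc ‖C c3 * (a * b)‖ ≤ ‖(C c3 : Tate k Unit)‖ * (‖a‖ * ‖b‖) :=
              (norm_mul_le _ _).trans (mul_le_mul_of_nonneg_left (norm_mul_le _ _) (norm_nonneg _))
        _ ≤ ‖c3‖ * (‖b‖ * ‖b‖) := by
              rw [norm_C]
              exact mul_le_mul_of_nonneg_left
                (mul_le_mul_of_nonneg_right hba (norm_nonneg _)) (norm_nonneg _)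
        _ < 1 * (‖b‖ * ‖b‖) := mul_lt_mul_of_pos_right hc (mul_pos hpos hpos)
        _ = _ := one_mul _
    have hnn : W (-(b * b * P α)) (m + m + 3) := h2.1.neg
    have hnn' : ‖-(b * b * P α)‖ = ‖b‖ * ‖b‖ := by rw [norm_neg, h2.2]
    rcases eq_or_lt_of_le hba with hE | hL
    · have ha : a ≠ 0 := by
        rintro rfl
        rw [norm_zero] at hE
        exact hpos.ne hE
      obtain ⟨n, hn⟩ := exists_W ha
      have h6 := hn.mul hn
      have h7 : ∃ l, 3 ≤ l ∧ W (a * a + -(b * b * P α)) l ∧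
          ‖a * a + -(b * b * P α)‖ = ‖b‖ * ‖b‖ := by
        rcases lt_or_gt_of_ne (show n + n ≠ m + m + 3 by omega) with hlt | hgt
        · have h8 := hnn.add_of_eq h6.1 (by rw [hnn', h6.2, hE]) hlt
          refine ⟨m + m + 3, by omega, ?_⟩
          rw [add_comm (a * a)]
          rw [hnn'] at h8
          exact h8
        · have h8 := h6.1.add_of_eq hnn (by rw [hnn', h6.2, hE]) hgt
          refine ⟨n + n, by omega, ?_⟩
          rw [h6.2, hE] at h8
          exact h8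
      obtain ⟨l, hl3, hl, hlN⟩ := h7
      refine ⟨l, hl3, ?_⟩
      have h9 := (hl.add_of_lt (g := -(C c3 * (a * b))) (by rw [hlN, norm_neg]; exact h5)).1
      have h10 : a * a + -(b * b * P α) + -(C c3 * (a * b)) = Nm c3 α a b := by
        unfold Nm; ring
      rwa [h10] at h9
    · refine ⟨m + m + 3, by omega, ?_⟩
      have h9 := (hnn.add_of_lt (g := a * a - C c3 * (a * b)) (by
        rw [hnn']
        refine norm_sub_lt ?_ h5
        exact (norm_mul_le _ _).trans_lt (mul_lt_mul'' hL hL (norm_nonneg _) (norm_nonneg _)))).1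
      have h10 : -(b * b * P α) + (a * a - C c3 * (a * b)) = Nm c3 α a b := by
        unfold Nm; ring
      rwa [h10] at h9

section Ev

variable [CompleteSpace k]

/-- evaluation at a point of the closed unit disc -/
noncomputable def ev (x : k) (hx : ‖x‖ ≤ 1) : Tate k Unit →+* k :=
  eval (RingHom.id k) (fun _ => le_rfl) (fun _ => x) (fun _ => hx)

variable {x : k} (hx : ‖x‖ ≤ 1)

lemma ev_C (a : k) : ev x hx (C a) = a := eval_C _ _ _ _ _
lemma ev_X : ev x hx (X ()) = x := eval_X _ _ _ _ _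
lemma norm_ev_le (f : Tate k Unit) : ‖ev x hx f‖ ≤ ‖f‖ := norm_eval_le _ _ _ _ _

lemma ev_eq (f : Tate k Unit) : ev x hx f = ∑' t : Unit →₀ ℕ, coeff t f * x ^ (t ()) := by
  unfold ev
  rw [eval_def]
  refine tsum_congr fun t => ?_
  rw [RingHom.id_apply]
  congr 1
  conv_lhs => rw [eq_single t, mon_single]

lemma ev_zero (f : Tate k Unit) (h : ‖(0 : k)‖ ≤ 1) : ev 0 h f = co 0 f := by
  rw [ev_eq, tsum_eq_single 0]
  · rw [Finsupp.coe_zero, Pi.zero_apply, pow_zero, mul_one, coeff_eq_co]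
    rfl
  · intro t ht
    have : t () ≠ 0 := fun h => ht (by rw [eq_single t, h, Finsupp.single_zero])
    rw [zero_pow this, mul_zero]

/-- the first order expansion -/
lemma norm_ev_sub_le (f : Tate k Unit) :
    ‖ev x hx f - co 0 f - co 1 f * x‖ ≤ ‖f‖ * ‖x‖ ^ 2 := by
  set g : Tate k Unit := f - C (co 0 f) - C (co 1 f) * X () with hg
  have h1 : ev x hx g = ev x hx f - co 0 f - co 1 f * x := by
    rw [hg, map_sub, map_sub, map_mul, ev_C, ev_C, ev_X]
  rw [← h1, ev_eq]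
  refine IsUltrametricDist.norm_tsum_le_of_forall_le_of_nonneg (by positivity) fun t => ?_
  have hgc : ∀ n, co n g = if n = 0 then 0 else if n = 1 then 0 else co n f := by
    intro n
    have hX : co n (X () : Tate k Unit) = if n = 1 then 1 else 0 := by
      rw [X, co_monomial]
    have hC : co n (C (co 0 f) : Tate k Unit) = if n = 0 then co 0 f else 0 := by
      have : (C (co 0 f) : Tate k Unit) = monomial (Finsupp.single () 0) (co 0 f) := by
        ext t
        rw [coeff_C, coeff_monomial, Finsupp.single_zero]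
      rw [this, co_monomial]
    rw [hg, co_sub, co_sub, co_C_mul, hX, hC]
    by_cases h0 : n = 0
    · subst h0
      simp
    · by_cases h1 : n = 1
      · subst h1
        simp
      · simp [h0, h1]
  rw [coeff_eq_co, hgc, norm_mul, norm_pow]
  by_cases h0 : t () = 0
  · rw [if_pos h0, norm_zero, zero_mul]; positivity
  · by_cases h1 : t () = 1
    · rw [if_neg h0, if_pos h1, norm_zero, zero_mul]; positivity
    · rw [if_neg h0, if_neg h1]
      exact mul_le_mul (norm_co_le _ _) (pow_le_pow_of_le_one (norm_nonneg _) hx (by omega))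
        (by positivity) (norm_nonneg _)

end Ev

variable [CompleteSpace k]

/-- The analytic heart of the argument. -/
theorem no_pair (hc0 : c3 ≠ 0) (hc : ‖c3‖ < 1) (hα : ‖α‖ < 1) (hx : ‖x₁‖ = ‖c3‖)
    (hx' : ‖x₁‖ ≤ 1) (hy : ‖y₁‖ ≤ ‖c3‖) (a b a' b' : Tate k Unit)
    (h : Nm c3 α a b * Nm c3 α a' b' = (X () * (X () - C x₁)) ^ 2)
    (h0 : co 0 a' = 0) (h1 : co 0 a = c3 * co 0 b)
    (h2 : ev x₁ hx' a + ev x₁ hx' b * y₁ = 0) : False := by
  have hcpos : 0 < ‖c3‖ := norm_pos_iff.2 hc0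
  -- the right hand side
  have hW1 : W (X () - C x₁ : Tate k Unit) 1 := by
    have := (W_X (k := k)).add_of_lt (g := -C x₁) (by
      rw [norm_neg, norm_C, norm_X, hx]; exact hc)
    rw [sub_eq_add_neg]
    exact this.1
  have hW2 : W ((X () * (X () - C x₁)) ^ 2 : Tate k Unit) 4 :=
    (((W_X (k := k)).mul hW1).1.pow 1).1
  rw [← h] at hW2
  have hne1 : Nm c3 α a b ≠ 0 := fun h => hW2.ne_zero (by rw [h, zero_mul])
  have hne2 : Nm c3 α a' b' ≠ 0 := fun h => hW2.ne_zero (by rw [h, mul_zero])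
  have hab : ¬ (a = 0 ∧ b = 0) := by
    rintro ⟨rfl, rfl⟩
    exact hne1 (by unfold Nm; ring)
  have hab' : ¬ (a' = 0 ∧ b' = 0) := by
    rintro ⟨rfl, rfl⟩
    exact hne2 (by unfold Nm; ring)
  -- the degree of `a` is one
  have key : ‖b‖ < ‖a‖ ∧ W a 1 := by
    rcases W_Nm hc hα hab with ⟨hba, n, hn, hN⟩ | ⟨l, hl, hN⟩
    · have hn0 : n ≠ 0 := by
        rintro rfl
        have h3 := hn.1
        rw [h1, norm_mul] at h3
        have h4 : ‖c3‖ * ‖co 0 b‖ ≤ 1 * ‖b‖ :=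
          mul_le_mul hc.le (norm_co_le _ _) (norm_nonneg _) zero_le_one
        rw [h3, one_mul] at h4
        exact absurd hba (not_lt.2 h4)
      refine ⟨hba, ?_⟩
      rcases W_Nm hc hα hab' with ⟨hba', n', hn', hN'⟩ | ⟨l', hl', hN'⟩
      · have hn0' : n' ≠ 0 := by
          rintro rfl
          have h3 := hn'.1
          rw [h0, norm_zero] at h3
          exact hn'.pos.ne h3
        have := (hN.mul hN').1.unique hW2
        have : n = 1 := by omega
        rwa [this] at hn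
      · have := (hN.mul hN').1.unique hW2
        omega
    · rcases W_Nm hc hα hab' with ⟨hba', n', hn', hN'⟩ | ⟨l', hl', hN'⟩
      · have hn0' : n' ≠ 0 := by
          rintro rfl
          have h3 := hn'.1
          rw [h0, norm_zero] at h3
          exact hn'.pos.ne h3
        have := (hN.mul hN').1.unique hW2
        omega
      · have := (hN.mul hN').1.unique hW2
        omega
  obtain ⟨hba, hW⟩ := key
  -- evaluate at `x₁`
  have hpos := hW.pos
  have e1 : ‖co 1 a * x₁‖ = ‖a‖ * ‖c3‖ := by rw [norm_mul, hW.1, hx]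
  have e2 : ‖co 0 a‖ < ‖a‖ * ‖c3‖ := by
    rw [h1, norm_mul, mul_comm]
    exact (mul_le_mul_of_nonneg_right (norm_co_le 0 b) hcpos.le).trans_lt
      (mul_lt_mul_of_pos_right hba hcpos)
  have e3 : ‖ev x₁ hx' a - co 0 a - co 1 a * x₁‖ < ‖a‖ * ‖c3‖ := by
    refine (norm_ev_sub_le hx' a).trans_lt ?_
    rw [hx, pow_two]
    refine mul_lt_mul_of_pos_left ?_ hpos
    calc ‖c3‖ * ‖c3‖ < ‖c3‖ * 1 := mul_lt_mul_of_pos_left hc hcpos
      _ = _ := mul_one _
  have e4 : ‖ev x₁ hx' b * y₁‖ < ‖a‖ * ‖c3‖ := by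
    rw [norm_mul]
    calc ‖ev x₁ hx' b‖ * ‖y₁‖ ≤ ‖b‖ * ‖c3‖ :=
          mul_le_mul (norm_ev_le _ _) hy (norm_nonneg _) (norm_nonneg _)
      _ < _ := mul_lt_mul_of_pos_right hba hcpos
  have e5 : co 1 a * x₁ = -(co 0 a + (ev x₁ hx' a - co 0 a - co 1 a * x₁) + ev x₁ hx' b * y₁) := by
    linear_combination h2
  have e6 := norm_add_lt (norm_add_lt e2 e3) e4
  rw [← norm_neg, ← e5, e1] at e6
  exact lt_irrefl _ e6

end Main

end Tate

end Pool.Agent.N194.BQ
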