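import Mathlib

/-!
# Restricted power series over an ultrametric normed ring
-/

set_option autoImplicit false

namespace Pool.Agent.N194.BQ

open Filter Topology

universe u v

/-- The ring `R⟨T_i : i ∈ σ⟩` of restricted power series: those power series with coefficients in
`R` whose coefficients tend to `0` (along the cofinite filter on the set of monomials). -/
def Tate (R : Type u) [NormedCommRing R] [IsUltrametricDist R] (σ : Type v) : Type (max u v) :=
  ↥(MvPowerSeries.IsRestricted.subring (R := R) (σ := σ) (fun _ => 1))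

variable {R : Type u} [NormedCommRing R] [IsUltrametricDist R] {σ : Type v}

noncomputable instance : CommRing (Tate R σ) :=
  inferInstanceAs (CommRing ↥(MvPowerSeries.IsRestricted.subring (R := R) (σ := σ) (fun _ => 1)))

namespace Tate

/-- the inclusion of the restricted power series in the power series -/
noncomputable def toMv : Tate R σ →+* MvPowerSeries σ R :=
  (MvPowerSeries.IsRestricted.subring (R := R) (σ := σ) (fun _ => 1)).subtype

lemma toMv_injective : Function.Injective (toMv : Tate R σ → MvPowerSeries σ R) :=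
  Subtype.val_injective

/-- the coefficients -/
noncomputable def coeff (t : σ →₀ ℕ) : Tate R σ →+ R :=
  (MvPowerSeries.coeff (R := R) t).toAddMonoidHom.comp (toMv (R := R) (σ := σ)).toAddMonoidHom

lemma coeff_def (t : σ →₀ ℕ) (f : Tate R σ) : coeff t f = MvPowerSeries.coeff t (toMv f) := rfl

@[ext] lemma ext {f g : Tate R σ} (h : ∀ t, coeff t f = coeff t g) : f = g :=
  toMv_injective (MvPowerSeries.ext h)

omit [IsUltrametricDist R] in
lemma isRestricted_iff (f : MvPowerSeries σ R) :
    MvPowerSeries.IsRestricted (fun _ => (1 : ℝ)) f ↔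
      Tendsto (fun t => ‖MvPowerSeries.coeff t f‖) cofinite (𝓝 0) := by
  unfold MvPowerSeries.IsRestricted
  simp [Finsupp.prod]

lemma tendsto_norm_coeff (f : Tate R σ) : Tendsto (fun t => ‖coeff t f‖) cofinite (𝓝 0) :=
  (isRestricted_iff _).1 f.2

lemma tendsto_coeff (f : Tate R σ) : Tendsto (fun t => coeff t f) cofinite (𝓝 0) :=
  tendsto_zero_iff_norm_tendsto_zero.2 (tendsto_norm_coeff f)

/-- construct an element from its coefficients -/
noncomputable def mk (c : (σ →₀ ℕ) → R) (h : Tendsto (fun t => ‖c t‖) cofinite (𝓝 0)) :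
    Tate R σ :=
  ⟨fun t => c t, (isRestricted_iff _).2 h⟩

@[simp] lemma coeff_mk (c : (σ →₀ ℕ) → R) (h : Tendsto (fun t => ‖c t‖) cofinite (𝓝 0))
    (t : σ →₀ ℕ) : coeff t (mk c h) = c t := rfl

lemma bddAbove (f : Tate R σ) : BddAbove (Set.range fun t => ‖coeff t f‖) := by
  have h := (tendsto_norm_coeff f).eventually (gt_mem_nhds (zero_lt_one))
  rw [eventually_cofinite] at h
  have h1 : BddAbove ((fun t => ‖coeff t f‖) '' {t | ¬ ‖coeff t f‖ < 1}) := (h.image _).bddAbove
  obtain ⟨B, hB⟩ := h1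
  refine ⟨max B 1, ?_⟩
  rintro _ ⟨t, rfl⟩
  by_cases ht : ‖coeff t f‖ < 1
  · exact ht.le.trans (le_max_right _ _)
  · exact (hB ⟨t, ht, rfl⟩).trans (le_max_left _ _)

/-- the Gauss norm -/
noncomputable instance : Norm (Tate R σ) := ⟨fun f => ⨆ t, ‖coeff t f‖⟩

lemma norm_def (f : Tate R σ) : ‖f‖ = ⨆ t, ‖coeff t f‖ := rfl

lemma norm_coeff_le (f : Tate R σ) (t : σ →₀ ℕ) : ‖coeff t f‖ ≤ ‖f‖ := le_ciSup (bddAbove f) t

lemma norm_le {f : Tate R σ} {C : ℝ} (h : ∀ t, ‖coeff t f‖ ≤ C) : ‖f‖ ≤ C := ciSup_le h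

lemma coeff_mul [DecidableEq σ] (f g : Tate R σ) (t : σ →₀ ℕ) :
    coeff t (f * g) = ∑ p ∈ Finset.HasAntidiagonal.antidiagonal t, coeff p.1 f * coeff p.2 g := by
  rw [coeff_def, map_mul, MvPowerSeries.coeff_mul]
  rfl

lemma coeff_one [DecidableEq σ] (t : σ →₀ ℕ) :
    coeff t (1 : Tate R σ) = if t = 0 then 1 else 0 := by
  rw [coeff_def, map_one, MvPowerSeries.coeff_one]

noncomputable instance instNACG : NormedAddCommGroup (Tate R σ) where
  dist f g := ‖-f + g‖
  dist_self f := by
    simp only [neg_add_cancel]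
    exact le_antisymm (norm_le fun t => by simp) (by
      have := norm_coeff_le (0 : Tate R σ) 0
      exact (norm_nonneg _).trans this)
  dist_comm f g := by
    simp only [norm_def, map_add, map_neg]
    congr 1
    funext t
    rw [← norm_neg]
    congr 1
    ring
  dist_triangle f g h := by
    refine norm_le fun t => ?_
    have e : coeff t (-f + h) = coeff t (-f + g) + coeff t (-g + h) := by
      simp only [map_add, map_neg]; ring
    rw [e]
    exact (norm_add_le _ _).trans (add_le_add (norm_coeff_le _ _) (norm_coeff_le _ _))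
  eq_of_dist_eq_zero {f g} h := by
    ext t
    have h1 := norm_coeff_le (-f + g) t
    rw [show ‖-f + g‖ = 0 from h] at h1
    have h2 := norm_le_zero_iff.1 h1
    simp only [map_add, map_neg] at h2
    exact (neg_add_eq_zero.1 h2)
  dist_eq _ _ := rfl

lemma norm_mul_le' (f g : Tate R σ) : ‖f * g‖ ≤ ‖f‖ * ‖g‖ := by
  classical
  refine norm_le fun t => ?_
  rw [coeff_mul]
  refine IsUltrametricDist.norm_sum_le_of_forall_le_of_nonneg
    (mul_nonneg (norm_nonneg _) (norm_nonneg _)) fun p _ => ?_
  exact (norm_mul_le _ _).trans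
    (mul_le_mul (norm_coeff_le _ _) (norm_coeff_le _ _) (norm_nonneg _) (norm_nonneg _))

noncomputable instance : NormedCommRing (Tate R σ) where
  __ := instNACG
  __ := (inferInstance : CommRing (Tate R σ))
  norm_mul_le := norm_mul_le'

instance : IsUltrametricDist (Tate R σ) := by
  refine IsUltrametricDist.isUltrametricDist_of_forall_norm_add_le_max_norm fun f g => ?_
  refine norm_le fun t => ?_
  rw [map_add]
  exact (IsUltrametricDist.norm_add_le_max _ _).trans
    (max_le_max (norm_coeff_le _ _) (norm_coeff_le _ _))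

lemma continuous_coeff (t : σ →₀ ℕ) : Continuous (coeff t : Tate R σ → R) := by
  refine (AddMonoidHomClass.lipschitz_of_bound (coeff t : Tate R σ →+ R) 1 fun f => ?_).continuous
  rw [one_mul]
  exact norm_coeff_le f t

instance [CompleteSpace R] : CompleteSpace (Tate R σ) := by
  refine Metric.complete_of_cauchySeq_tendsto fun u hu => ?_
  have h1 : ∀ t, ∃ l, Tendsto (fun n => coeff t (u n)) atTop (𝓝 l) := by
    intro t
    refine cauchySeq_tendsto_of_complete ?_
    rw [Metric.cauchySeq_iff] at hu ⊢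
    intro ε hε
    obtain ⟨N, hN⟩ := hu ε hε
    refine ⟨N, fun m hm n hn => lt_of_le_of_lt ?_ (hN m hm n hn)⟩
    rw [dist_eq_norm, dist_eq_norm, ← map_sub]
    exact norm_coeff_le _ _
  choose l hl using h1
  have h2 : ∀ ε > 0, ∃ N, ∀ n ≥ N, ∀ t, ‖coeff t (u n) - l t‖ ≤ ε := by
    intro ε hε
    rw [Metric.cauchySeq_iff] at hu
    obtain ⟨N, hN⟩ := hu ε hε
    refine ⟨N, fun n hn t => ?_⟩
    have h3 : Tendsto (fun m => ‖coeff t (u n) - coeff t (u m)‖) atTop
        (𝓝 ‖coeff t (u n) - l t‖) := (tendsto_const_nhds.sub (hl t)).norm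
    refine le_of_tendsto h3 ?_
    filter_upwards [eventually_ge_atTop N] with m hm
    rw [← map_sub]
    refine (norm_coeff_le _ _).trans ?_
    rw [← dist_eq_norm]
    exact (hN n hn m hm).le
  have h4 : Tendsto (fun t => ‖l t‖) cofinite (𝓝 0) := by
    rw [Metric.tendsto_nhds]
    intro ε hε
    obtain ⟨N, hN⟩ := h2 (ε / 2) (half_pos hε)
    have h5 := (tendsto_norm_coeff (u N)).eventually (gt_mem_nhds (half_pos hε))
    filter_upwards [h5] with t ht
    rw [Real.dist_eq, sub_zero, abs_of_nonneg (norm_nonneg _)]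
    have h6 : ‖l t‖ ≤ max ‖coeff t (u N)‖ ‖coeff t (u N) - l t‖ := by
      have : l t = coeff t (u N) + (-(coeff t (u N) - l t)) := by ring
      calc ‖l t‖ = ‖coeff t (u N) + (-(coeff t (u N) - l t))‖ := by rw [← this]
        _ ≤ max ‖coeff t (u N)‖ ‖-(coeff t (u N) - l t)‖ := IsUltrametricDist.norm_add_le_max _ _
        _ = _ := by rw [norm_neg]
    refine lt_of_le_of_lt h6 (max_lt (ht.trans (half_lt_self hε)) ?_)
    exact lt_of_le_of_lt (hN N le_rfl t) (half_lt_self hε)
  refine ⟨mk l h4, ?_⟩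
  rw [Metric.tendsto_atTop]
  intro ε hε
  obtain ⟨N, hN⟩ := h2 (ε / 2) (half_pos hε)
  refine ⟨N, fun n hn => ?_⟩
  rw [dist_eq_norm]
  refine lt_of_le_of_lt (norm_le fun t => ?_) (half_lt_self hε)
  rw [map_sub, coeff_mk]
  exact hN n hn t

/-- monomials -/
noncomputable def monomial (t : σ →₀ ℕ) (a : R) : Tate R σ :=
  ⟨MvPowerSeries.monomial t a, MvPowerSeries.isRestricted_monomial _ _ _⟩

lemma coeff_monomial [DecidableEq σ] (t s : σ →₀ ℕ) (a : R) :
    coeff s (monomial t a) = if s = t then a else 0 :=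
  MvPowerSeries.coeff_monomial s t a

/-- constants -/
noncomputable def C : R →+* Tate R σ where
  toFun a := ⟨MvPowerSeries.C a, MvPowerSeries.isRestricted_C _ _⟩
  map_one' := Subtype.ext (map_one _)
  map_mul' a b := Subtype.ext (map_mul _ a b)
  map_zero' := Subtype.ext (map_zero _)
  map_add' a b := Subtype.ext (map_add _ a b)

lemma coeff_C [DecidableEq σ] (t : σ →₀ ℕ) (a : R) :
    coeff t (C a : Tate R σ) = if t = 0 then a else 0 :=
  MvPowerSeries.coeff_C t a

lemma coeff_zero_C (a : R) : coeff 0 (C a : Tate R σ) = a := by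
  classical
  rw [coeff_C, if_pos rfl]

lemma C_injective : Function.Injective (C : R → Tate R σ) := by
  intro a b h
  rw [← coeff_zero_C (σ := σ) a, h, coeff_zero_C]

/-- the variables -/
noncomputable def X (i : σ) : Tate R σ := monomial (Finsupp.single i 1) 1

lemma toMv_X (i : σ) : toMv (X i : Tate R σ) = MvPowerSeries.X i := rfl
lemma toMv_C (a : R) : toMv (C a : Tate R σ) = MvPowerSeries.C a := rfl
lemma toMv_monomial (t : σ →₀ ℕ) (a : R) :
    toMv (monomial t a : Tate R σ) = MvPowerSeries.monomial t a := rfl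

lemma coeff_C_mul (t : σ →₀ ℕ) (a : R) (f : Tate R σ) : coeff t (C a * f) = a * coeff t f := by
  rw [coeff_def, map_mul, toMv_C, MvPowerSeries.coeff_C_mul]
  rfl

lemma norm_monomial (t : σ →₀ ℕ) (a : R) : ‖(monomial t a : Tate R σ)‖ = ‖a‖ := by
  classical
  apply le_antisymm
  · refine norm_le fun s => ?_
    rw [coeff_monomial]
    split_ifs
    · exact le_rfl
    · rw [norm_zero]; exact norm_nonneg _
  · have := norm_coeff_le (monomial t a : Tate R σ) t
    rwa [coeff_monomial, if_pos rfl] at this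

lemma norm_C (a : R) : ‖(C a : Tate R σ)‖ = ‖a‖ := norm_monomial 0 a

lemma norm_X [NormOneClass R] (i : σ) : ‖(X i : Tate R σ)‖ = 1 := by
  rw [X, norm_monomial, norm_one]

instance [NormOneClass R] : NormOneClass (Tate R σ) :=
  ⟨by rw [← map_one (C : R →+* Tate R σ), norm_C, norm_one]⟩

noncomputable instance : Algebra R (Tate R σ) := C.toAlgebra

lemma algebraMap_eq : algebraMap R (Tate R σ) = C := rfl

instance [Nontrivial R] : Nontrivial (Tate R σ) := C_injective.nontrivial

instance [NoZeroDivisors R] : NoZeroDivisors (Tate R σ) :=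
  (toMv_injective (R := R) (σ := σ)).noZeroDivisors toMv (map_zero _) (map_mul _)

instance [IsDomain R] : IsDomain (Tate R σ) := NoZeroDivisors.to_isDomain _

end Tate

end Pool.Agent.N194.BQ
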